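import Mathlib
import Pool.Agent.MU1.Dir
import Pool.Agent.MU71.Defs

/-!
# Bounds for Hecke eigenvalues and their Dirichlet inverse
-/

set_option autoImplicit false

open Finset

namespace Pool.Agent.MU74

/-! ### multiplicative bounds -/

/-- The product over the primes of `n`. -/
theorem mult_le {f : ArithmeticFunction ℤ} (hf : f.IsMultiplicative) {g : ℕ → ℕ → ℝ} {n : ℕ}
    (hn : n ≠ 0)
    (h : ∀ l : ℕ, l.Prime → ∀ k : ℕ, 1 ≤ k → |(f (l ^ k) : ℝ)| ≤ g l k) :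
    |(f n : ℝ)| ≤ ∏ l ∈ n.primeFactors, g l (n.factorization l) := by
  rw [hf.multiplicative_factorization f hn, Finsupp.prod, Int.cast_prod, Finset.abs_prod,
    Nat.support_factorization]
  apply Finset.prod_le_prod
  · intro i _
    exact abs_nonneg _
  · intro l hl
    apply h l (Nat.prime_of_mem_primeFactors hl)
    have h1 := Nat.prime_of_mem_primeFactors hl
    exact (h1.dvd_iff_one_le_factorization hn).1 (Nat.dvd_of_mem_primeFactors hl)

theorem rpow_prod {n : ℕ} (hn : n ≠ 0) (s : ℝ) :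
    ∏ l ∈ n.primeFactors, ((l : ℝ) ^ (n.factorization l)) ^ s = (n : ℝ) ^ s := by
  rw [Real.finsetProd_rpow]
  · congr 1
    conv_rhs => rw [← Nat.prod_factorization_pow_eq_self hn]
    rw [Finsupp.prod, Nat.support_factorization]
    push_cast
    rfl
  · intro i _
    positivity

/-- `k + 1 ≤ (2/ε) 2^(ε k)`. -/
theorem succ_le_rpow {ε : ℝ} (hε : 0 < ε) (hε1 : ε ≤ 1) (k : ℕ) {l : ℝ} (hl : 2 ≤ l) :
    ((k : ℝ) + 1) ≤ 2 / ε * (l ^ k) ^ ε := by
  have h1 : (2 : ℝ) ^ ((k : ℝ) * ε) ≤ (l ^ k) ^ ε := by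
    rw [Real.rpow_mul (by norm_num), Real.rpow_natCast]
    apply Real.rpow_le_rpow (by positivity) _ hε.le
    exact pow_le_pow_left₀ (by norm_num) hl k
  have h2 : 1 + (k : ℝ) * ε * Real.log 2 ≤ (2 : ℝ) ^ ((k : ℝ) * ε) := by
    rw [Real.rpow_def_of_pos (by norm_num)]
    have := Real.add_one_le_exp (Real.log 2 * ((k : ℝ) * ε))
    linarith
  have h3 : (1 / 2 : ℝ) ≤ Real.log 2 := by
    have := Real.log_two_gt_d9
    linarith
  have h4 : ((k : ℝ) + 1) * ε ≤ 2 * (1 + (k : ℝ) * ε * Real.log 2) := by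
    have : (k : ℝ) * ε * (1 / 2) ≤ (k : ℝ) * ε * Real.log 2 :=
      mul_le_mul_of_nonneg_left h3 (by positivity)
    nlinarith
  calc ((k : ℝ) + 1) = (((k : ℝ) + 1) * ε) / ε := by field_simp
    _ ≤ (2 * (1 + (k : ℝ) * ε * Real.log 2)) / ε := by gcongr
    _ ≤ (2 * (l ^ k) ^ ε) / ε := by
        gcongr
        exact h2.trans h1
    _ = 2 / ε * (l ^ k) ^ ε := by ring

/-- for a large prime no constant is needed -/
theorem succ_le_rpow' {ε : ℝ} (hε : 0 < ε) (k : ℕ) {l : ℝ} (hl : (2 : ℝ) ^ (1 / ε) ≤ l) :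
    ((k : ℝ) + 1) ≤ (l ^ k) ^ ε := by
  have h0 : (0 : ℝ) < 2 ^ (1 / ε) := by positivity
  have h1 : (2 : ℝ) ≤ l ^ ε := by
    calc (2 : ℝ) = (2 ^ (1 / ε)) ^ ε := by
          rw [← Real.rpow_mul (by norm_num)]
          rw [one_div_mul_cancel hε.ne', Real.rpow_one]
      _ ≤ l ^ ε := Real.rpow_le_rpow h0.le hl hε.le
  have h2 : (l ^ k) ^ ε = (l ^ ε) ^ k := by
    rw [← Real.rpow_natCast, ← Real.rpow_mul (by linarith), ← Real.rpow_natCast (l ^ ε) k,
      ← Real.rpow_mul (by linarith)]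
    ring_nf
  rw [h2]
  have h3 : ((k + 1 : ℕ) : ℝ) ≤ (2 : ℝ) ^ k := by
    exact_mod_cast Nat.lt_two_pow_self
  calc ((k : ℝ) + 1) = ((k + 1 : ℕ) : ℝ) := by push_cast; ring
    _ ≤ (2 : ℝ) ^ k := h3
    _ ≤ (l ^ ε) ^ k := pow_le_pow_left₀ (by norm_num) h1 k

/-- The divisor bound. -/
theorem divisor_bound {ε : ℝ} (hε : 0 < ε) (hε1 : ε ≤ 1) :
    ∃ A : ℝ, 1 ≤ A ∧ ∀ n : ℕ, 1 ≤ n → (n.divisors.card : ℝ) ≤ A * (n : ℝ) ^ ε := by
  obtain ⟨L, hL⟩ := exists_nat_ge ((2 : ℝ) ^ (1 / ε))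
  have hK : (1 : ℝ) ≤ 2 / ε := by
    rw [le_div_iff₀ hε]
    linarith
  refine ⟨(2 / ε) ^ L, one_le_pow₀ hK, fun n hn => ?_⟩
  have hn0 : n ≠ 0 := by omega
  rw [Nat.card_divisors hn0]
  push_cast
  set c : ℕ → ℝ := fun l => if l < L then 2 / ε else 1 with hc
  have h1 : ∏ l ∈ n.primeFactors, ((n.factorization l : ℝ) + 1) ≤
      ∏ l ∈ n.primeFactors, (c l * ((l : ℝ) ^ (n.factorization l)) ^ ε) := by
    apply Finset.prod_le_prod
    · intro i _
      positivity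
    · intro l hl
      have hp := Nat.prime_of_mem_primeFactors hl
      by_cases hlL : l < L
      · simp only [hc, if_pos hlL]
        apply succ_le_rpow hε hε1
        exact_mod_cast hp.two_le
      · simp only [hc, if_neg hlL, one_mul]
        apply succ_le_rpow' hε
        have : (L : ℝ) ≤ l := by exact_mod_cast (not_lt.1 hlL)
        linarith
  rw [Finset.prod_mul_distrib, rpow_prod hn0] at h1
  refine h1.trans (mul_le_mul_of_nonneg_right ?_ (by positivity))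
  rw [hc]
  rw [Finset.prod_ite]
  rw [Finset.prod_const, Finset.prod_const_one, mul_one]
  apply pow_le_pow_right₀ hK
  calc #(n.primeFactors.filter (fun l => l < L)) ≤ #(Finset.range L) := by
        apply Finset.card_le_card
        intro l hl
        exact Finset.mem_range.2 (Finset.mem_filter.1 hl).2
    _ = L := Finset.card_range L

/-! ### the local bound -/

theorem le_of_sq_le_sq {x y : ℝ} (h : x ^ 2 ≤ y ^ 2) (hy : 0 ≤ y) : x ≤ y :=
  (le_abs_self x).trans (abs_le_of_sq_le_sq h hy)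

/-- The roots of `X^2 - a X + l`. -/
theorem exists_roots {a l R : ℝ} (hR : l ≤ R ^ 2) (hR0 : 0 < R)
    (h : |a| * R ≤ R ^ 2 + l) :
    ∃ α β : ℂ, α + β = a ∧ α * β = l ∧ ‖α‖ ≤ R ∧ ‖β‖ ≤ R := by
  rcases le_total (a ^ 2) (4 * l) with h4 | h4
  · set s := √(4 * l - a ^ 2) with hs
    have hs2 : s ^ 2 = 4 * l - a ^ 2 := Real.sq_sqrt (by linarith)
    have hs2c : (s : ℂ) ^ 2 = 4 * l - a ^ 2 := by exact_mod_cast hs2
    refine ⟨(a + s * Complex.I) / 2, (a - s * Complex.I) / 2, by ring, ?_, ?_, ?_⟩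
    · have : (a + s * Complex.I) / 2 * ((a - s * Complex.I) / 2) =
          ((a : ℂ) ^ 2 - (s : ℂ) ^ 2 * Complex.I ^ 2) / 4 := by ring
      rw [this, hs2c, Complex.I_sq]
      ring
    · have h1 : ‖((a : ℂ) + s * Complex.I) / 2‖ ^ 2 = l := by
        rw [← Complex.normSq_eq_norm_sq]
        rw [Complex.normSq_div, Complex.normSq_add_mul_I]
        simp [Complex.normSq_ofNat, hs2]
        ring
      exact le_of_sq_le_sq (by rw [h1]; exact hR) hR0.le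
    · have h1 : ‖((a : ℂ) - s * Complex.I) / 2‖ ^ 2 = l := by
        have e : ((a : ℂ) - s * Complex.I) / 2 = ((a : ℂ) + ((-s : ℝ) : ℂ) * Complex.I) / 2 := by
          push_cast; ring
        rw [e, ← Complex.normSq_eq_norm_sq]
        rw [Complex.normSq_div, Complex.normSq_add_mul_I]
        simp [Complex.normSq_ofNat, hs2]
        ring
      exact le_of_sq_le_sq (by rw [h1]; exact hR) hR0.le
  · set s := √(a ^ 2 - 4 * l) with hs
    have hs2 : s ^ 2 = a ^ 2 - 4 * l := Real.sq_sqrt (by linarith)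
    have hs0 : 0 ≤ s := Real.sqrt_nonneg _
    have hs2c : (s : ℂ) ^ 2 = a ^ 2 - 4 * l := by exact_mod_cast hs2
    have h2 : |a| ≤ 2 * R := by
      have : |a| * R ≤ 2 * R * R := by nlinarith
      exact le_of_mul_le_mul_right this hR0
    have h3 : s ≤ 2 * R - |a| := by
      apply Real.sqrt_le_iff.2
      refine ⟨by linarith, ?_⟩
      have : |a| ^ 2 = a ^ 2 := sq_abs a
      nlinarith
    refine ⟨(a + s) / 2, (a - s) / 2, by ring, ?_, ?_, ?_⟩
    · have : ((a : ℂ) + s) / 2 * ((a - s) / 2) = ((a : ℂ) ^ 2 - (s : ℂ) ^ 2) / 4 := by ring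
      rw [this, hs2c]
      ring
    · have e : ((a : ℂ) + s) / 2 = (((a + s) / 2 : ℝ) : ℂ) := by push_cast; ring
      rw [e, Complex.norm_real, Real.norm_eq_abs, abs_le]
      constructor <;> cases abs_cases a <;> linarith
    · have e : ((a : ℂ) - s) / 2 = (((a - s) / 2 : ℝ) : ℂ) := by push_cast; ring
      rw [e, Complex.norm_real, Real.norm_eq_abs, abs_le]
      constructor <;> cases abs_cases a <;> linarith

/-- A linear recurrence of order two. -/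
theorem recurrence_bound {a l R : ℝ} (hR : l ≤ R ^ 2) (hR0 : 0 < R)
    (h : |a| * R ≤ R ^ 2 + l) (u : ℕ → ℝ) (h0 : u 0 = 1) (h1 : u 1 = a)
    (hrec : ∀ k, u (k + 2) = a * u (k + 1) - l * u k) (k : ℕ) :
    |u k| ≤ (k + 1) * R ^ k := by
  obtain ⟨α, β, hs, hp, hα, hβ⟩ := exists_roots hR hR0 h
  have key : ∀ k : ℕ, (u (k + 1) : ℂ) = α ^ (k + 1) + β * u k := by
    intro k
    induction k with
    | zero =>
      rw [h1, h0]
      push_cast
      rw [← hs]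
      ring
    | succ k ih =>
      have : (u (k + 2) : ℂ) = a * u (k + 1) - l * u k := by exact_mod_cast hrec k
      rw [show k + 1 + 1 = k + 2 by ring, this, ← hs, ← hp]
      have e : α ^ (k + 1) = u (k + 1) - β * u k := by rw [ih]; ring
      rw [show α ^ (k + 2) = α * α ^ (k + 1) by ring, e]
      ring
  have main : ∀ k : ℕ, ‖(u k : ℂ)‖ ≤ (k + 1) * R ^ k := by
    intro k
    induction k with
    | zero => simp [h0]
    | succ k ih =>
      rw [key k]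
      calc ‖α ^ (k + 1) + β * (u k : ℂ)‖ ≤ ‖α ^ (k + 1)‖ + ‖β * (u k : ℂ)‖ := norm_add_le _ _
        _ = ‖α‖ ^ (k + 1) + ‖β‖ * ‖(u k : ℂ)‖ := by rw [norm_pow, norm_mul]
        _ ≤ R ^ (k + 1) + R * ((k + 1) * R ^ k) := by
            gcongr
        _ = (((k + 1 : ℕ) : ℝ) + 1) * R ^ (k + 1) := by
            push_cast
            ring
  have := main k
  rwa [Complex.norm_real, Real.norm_eq_abs] at this

/-- `x^(1/x^2) ≤ 1 + 1/x`. -/
theorem rpow_small {l : ℕ} (hl : 1 ≤ l) {τ : ℝ} (hτ : τ * (l : ℝ) ^ 2 ≤ 1) :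
    (l : ℝ) ^ τ ≤ 1 + 1 / (l : ℝ) := by
  have hl0 : (0 : ℝ) < l := by exact_mod_cast hl
  have hl1 : (1 : ℝ) ≤ l := by exact_mod_cast hl
  have h1 : (l : ℝ) ≤ (1 + 1 / (l : ℝ)) ^ (l ^ 2) := by
    have := one_add_mul_le_pow (a := 1 / (l : ℝ)) (by
      have : (0 : ℝ) ≤ 1 / l := by positivity
      linarith) (l ^ 2)
    push_cast at this
    have e : (l : ℝ) ^ 2 * (1 / l) = l := by field_simp
    rw [e] at this
    linarith
  have h2 : (l : ℝ) ^ τ ≤ (l : ℝ) ^ (1 / (l : ℝ) ^ 2) := by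
    apply Real.rpow_le_rpow_of_exponent_le hl1
    rw [le_div_iff₀ (by positivity)]
    exact hτ
  refine h2.trans ?_
  calc (l : ℝ) ^ (1 / (l : ℝ) ^ 2) ≤ ((1 + 1 / (l : ℝ)) ^ (l ^ 2)) ^ (1 / (l : ℝ) ^ 2) :=
        Real.rpow_le_rpow hl0.le h1 (by positivity)
    _ = 1 + 1 / (l : ℝ) := by
        rw [← Real.rpow_natCast, ← Real.rpow_mul (by positivity)]
        push_cast
        rw [mul_one_div_cancel (by positivity), Real.rpow_one]

/-- The condition on the growth rate. -/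
theorem rate {l : ℕ} (hl : 2 ≤ l) {a τ : ℝ} (hτ0 : 0 ≤ τ) (hτ : τ ≤ 1 / 8)
    (h : (|a| ≤ l ∧ τ * (l : ℝ) ^ 2 ≤ 1) ∨ (|a| ≤ 2 * (l : ℝ) ^ (3 / 4 : ℝ) ∧ 256 ≤ l)) :
    |a| * (l : ℝ) ^ (1 - τ) ≤ ((l : ℝ) ^ (1 - τ)) ^ 2 + l := by
  have hl0 : (0 : ℝ) < l := by positivity
  have hl1 : (1 : ℝ) ≤ l := by exact_mod_cast (by omega : 1 ≤ l)
  set R := (l : ℝ) ^ (1 - τ) with hR
  have hR0 : 0 < R := by positivity
  rcases h with ⟨ha, hτl⟩ | ⟨ha, hl256⟩
  · set x := (l : ℝ) ^ τ with hx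
    have hx1 : 1 ≤ x := Real.one_le_rpow hl1 hτ0
    have hxl : x ≤ 1 + 1 / (l : ℝ) := rpow_small (by omega) hτl
    have hRx : R * x = l := by
      rw [hR, hx, ← Real.rpow_add hl0]
      rw [sub_add_cancel, Real.rpow_one]
    -- need `l R ≤ R^2 + l`, i.e. `l ≤ R + x`
    have h1 : (l : ℝ) ≤ R + x := by
      have h2 : (l : ℝ) * x ≤ (R + x) * x := by
        have h3 : (x - 1) * l ≤ 1 := by
          have : (x - 1) ≤ 1 / (l : ℝ) := by linarith
          calc (x - 1) * l ≤ 1 / (l : ℝ) * l := by gcongr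
            _ = 1 := by field_simp
        nlinarith
      exact le_of_mul_le_mul_right h2 (by linarith)
    calc |a| * R ≤ l * R := by gcongr
      _ ≤ (R + x) * R := by gcongr
      _ = R ^ 2 + R * x := by ring
      _ = R ^ 2 + l := by rw [hRx]
  · have h1 : |a| ≤ R := by
      refine ha.trans ?_
      have h2 : (2 : ℝ) ≤ (l : ℝ) ^ (1 / 8 : ℝ) := by
        have : ((256 : ℝ)) ^ (1 / 8 : ℝ) = 2 := by
          rw [show (256 : ℝ) = 2 ^ (8 : ℝ) by norm_num, ← Real.rpow_mul (by norm_num)]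
          norm_num
        rw [← this]
        apply Real.rpow_le_rpow (by norm_num) _ (by norm_num)
        exact_mod_cast hl256
      calc 2 * (l : ℝ) ^ (3 / 4 : ℝ) ≤ (l : ℝ) ^ (1 / 8 : ℝ) * (l : ℝ) ^ (3 / 4 : ℝ) := by gcongr
        _ = (l : ℝ) ^ (7 / 8 : ℝ) := by
            rw [← Real.rpow_add hl0]
            norm_num
        _ ≤ R := by
            apply Real.rpow_le_rpow_of_exponent_le hl1
            linarith
    nlinarith

/-! ### the coefficients -/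

section
variable {N : ℕ} {a : ℕ → ℤ}

theorem hr_of (hgood : ∀ l : ℕ, l.Prime → ¬ l ∣ N → ∀ n : ℕ,
      a (l * n) + (if l ∣ n then (l : ℤ) * a (n / l) else 0) = a l * a n)
    (hbad : ∀ l : ℕ, l.Prime → l ∣ N → |a l| ≤ 1 ∧ ∀ n : ℕ, a (l * n) = a l * a n) :
    MU1.HR N a := by
  intro l hl n
  by_cases hlN : l ∣ N
  · rw [if_neg (by tauto), (hbad l hl hlN).2 n, add_zero]
  · have := hgood l hl hlN n
    by_cases hln : l ∣ n
    · rw [if_pos ⟨hln, hlN⟩]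
      rwa [if_pos hln] at this
    · rw [if_neg (by tauto)]
      rwa [if_neg hln] at this

theorem pow_rpow (l : ℕ) (t : ℝ) (k : ℕ) : ((l : ℝ) ^ t) ^ k = ((l : ℝ) ^ k) ^ t := by
  rw [← Real.rpow_natCast, ← Real.rpow_natCast, ← Real.rpow_mul (by positivity),
    ← Real.rpow_mul (by positivity), mul_comm]

theorem local_a (ha1 : a 1 = 1)
    (hgood : ∀ l : ℕ, l.Prime → ¬ l ∣ N → ∀ n : ℕ,
      a (l * n) + (if l ∣ n then (l : ℤ) * a (n / l) else 0) = a l * a n)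
    (hbad : ∀ l : ℕ, l.Prime → l ∣ N → |a l| ≤ 1 ∧ ∀ n : ℕ, a (l * n) = a l * a n)
    {L : ℕ} (hL : 256 ≤ L)
    (hb : ∀ l : ℕ, l.Prime → ¬ l ∣ N → |(a l : ℝ)| ≤ l)
    (hb2 : ∀ l : ℕ, l.Prime → ¬ l ∣ N → L ≤ l → |(a l : ℝ)| ≤ 2 * (l : ℝ) ^ (3 / 4 : ℝ))
    {l : ℕ} (hl : l.Prime) (k : ℕ) :
    |(a (l ^ k) : ℝ)| ≤ ((k : ℝ) + 1) * ((l : ℝ) ^ k) ^ (1 - 1 / (L : ℝ) ^ 2) := by
  have hL0 : (0 : ℝ) < L := by positivity
  have hL1 : (256 : ℝ) ≤ L := by exact_mod_cast hL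
  have hτ0 : 0 ≤ 1 / (L : ℝ) ^ 2 := by positivity
  have hτ : 1 / (L : ℝ) ^ 2 ≤ 1 / 8 := by
    apply one_div_le_one_div_of_le (by norm_num)
    nlinarith
  have hl1 : (1 : ℝ) ≤ l := by exact_mod_cast hl.one_lt.le
  have hl0 : (0 : ℝ) < l := by linarith
  by_cases hlN : l ∣ N
  · obtain ⟨h1, h2⟩ := hbad l hl hlN
    have h3 : ∀ k : ℕ, |a (l ^ k)| ≤ 1 := by
      intro k
      induction k with
      | zero => simp [ha1]
      | succ k ih =>
        rw [pow_succ, mul_comm, h2, abs_mul]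
        exact mul_le_one₀ h1 (abs_nonneg _) ih
    have h4 : |(a (l ^ k) : ℝ)| ≤ 1 := by exact_mod_cast h3 k
    refine h4.trans ?_
    have h5 : (1 : ℝ) ≤ ((l : ℝ) ^ k) ^ (1 - 1 / (L : ℝ) ^ 2) :=
      Real.one_le_rpow (one_le_pow₀ hl1) (by linarith)
    have h6 : (1 : ℝ) ≤ (k : ℝ) + 1 := by
      have : (0 : ℝ) ≤ k := by positivity
      linarith
    nlinarith
  · rw [← pow_rpow]
    apply recurrence_bound (l := (l : ℝ)) _ _ _ (fun k => (a (l ^ k) : ℝ))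
    · simp [ha1]
    · rfl
    · intro k
      have h := hgood l hl hlN (l ^ (k + 1))
      rw [if_pos (dvd_pow_self _ (by omega)), show l * l ^ (k + 1) = l ^ (k + 2) by ring,
        show l ^ (k + 1) / l = l ^ k by rw [pow_succ, Nat.mul_div_cancel _ hl.pos]] at h
      have : a (l ^ (k + 2)) = a (l ^ 1) * a (l ^ (k + 1)) - l * a (l ^ k) := by
        rw [pow_one]
        linarith
      simp only [this]
      push_cast
      ring
    · rw [← Real.rpow_natCast, ← Real.rpow_mul hl0.le]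
      calc (l : ℝ) = (l : ℝ) ^ (1 : ℝ) := (Real.rpow_one _).symm
        _ ≤ _ := by
            apply Real.rpow_le_rpow_of_exponent_le hl1
            push_cast
            linarith
    · positivity
    · simp only [pow_one]
      apply rate hl.two_le hτ0 hτ
      rcases le_total l L with hlL | hlL
      · left
        refine ⟨hb l hl hlN, ?_⟩
        rw [div_mul_eq_mul_div, div_le_one (by positivity), one_mul]
        have : (l : ℝ) ≤ L := by exact_mod_cast hlL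
        exact pow_le_pow_left₀ hl0.le this 2
      · right
        exact ⟨hb2 l hl hlN hlL, by omega⟩

theorem local_inv (ha1 : a 1 = 1)
    (hgood : ∀ l : ℕ, l.Prime → ¬ l ∣ N → ∀ n : ℕ,
      a (l * n) + (if l ∣ n then (l : ℤ) * a (n / l) else 0) = a l * a n)
    (hbad : ∀ l : ℕ, l.Prime → l ∣ N → |a l| ≤ 1 ∧ ∀ n : ℕ, a (l * n) = a l * a n)
    {L : ℕ} (hL : 256 ≤ L)
    (hb : ∀ l : ℕ, l.Prime → ¬ l ∣ N → |(a l : ℝ)| ≤ l)
    (hb2 : ∀ l : ℕ, l.Prime → ¬ l ∣ N → L ≤ l → |(a l : ℝ)| ≤ 2 * (l : ℝ) ^ (3 / 4 : ℝ))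
    {l : ℕ} (hl : l.Prime) (k : ℕ) :
    |(MU1.loc N a l k : ℝ)| ≤ ((k : ℝ) + 1) * ((l : ℝ) ^ k) ^ (1 - 1 / (L : ℝ) ^ 2) := by
  have hL0 : (0 : ℝ) < L := by positivity
  have hL1 : (256 : ℝ) ≤ L := by exact_mod_cast hL
  have hτ : 1 / (L : ℝ) ^ 2 ≤ 1 / 8 := by
    apply one_div_le_one_div_of_le (by norm_num)
    nlinarith
  have hl1 : (1 : ℝ) ≤ l := by exact_mod_cast hl.one_lt.le
  have hl0 : (0 : ℝ) < l := by linarith
  match k with
  | 0 => simp [MU1.loc]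
  | 1 =>
    have := local_a ha1 hgood hbad hL hb hb2 hl 1
    simpa [MU1.loc] using this
  | 2 =>
    have h1 : (l : ℝ) ≤ ((l : ℝ) ^ 2) ^ (1 - 1 / (L : ℝ) ^ 2) := by
      rw [← Real.rpow_natCast, ← Real.rpow_mul hl0.le]
      calc (l : ℝ) = (l : ℝ) ^ (1 : ℝ) := (Real.rpow_one _).symm
        _ ≤ _ := by
            apply Real.rpow_le_rpow_of_exponent_le hl1
            push_cast
            linarith
    have h2 : |(MU1.loc N a l 2 : ℝ)| ≤ l := by
      by_cases hlN : l ∣ N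
      · simp [MU1.loc, hlN]
      · simp [MU1.loc, hlN]
    push_cast
    linarith
  | k + 3 =>
    simp only [MU1.loc, Int.cast_zero, abs_zero]
    positivity

theorem mult_div_le {f : ArithmeticFunction ℤ} (hf : f.IsMultiplicative) {t : ℝ}
    (h : ∀ l : ℕ, l.Prime → ∀ k : ℕ, 1 ≤ k → |(f (l ^ k) : ℝ)| ≤ ((k : ℝ) + 1) * ((l : ℝ) ^ k) ^ t)
    {n : ℕ} (hn : n ≠ 0) : |(f n : ℝ)| ≤ n.divisors.card * (n : ℝ) ^ t := by
  have := mult_le hf (g := fun l k => ((k : ℝ) + 1) * ((l : ℝ) ^ k) ^ t) hn h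
  refine this.trans (le_of_eq ?_)
  rw [Finset.prod_mul_distrib, rpow_prod hn, Nat.card_divisors hn]
  push_cast
  rfl

/-- **Bounds for the coefficients and their Dirichlet inverse.** -/
theorem exists_coef' (ha0 : a 0 = 0) (ha1 : a 1 = 1)
    (hgood : ∀ l : ℕ, l.Prime → ¬ l ∣ N → ∀ n : ℕ,
      a (l * n) + (if l ∣ n then (l : ℤ) * a (n / l) else 0) = a l * a n)
    (hbad : ∀ l : ℕ, l.Prime → l ∣ N → |a l| ≤ 1 ∧ ∀ n : ℕ, a (l * n) = a l * a n)
    (hb : ∀ l : ℕ, l.Prime → ¬ l ∣ N → |(a l : ℝ)| ≤ l)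
    (l₀ : ℕ) (hb2 : ∀ l : ℕ, l.Prime → ¬ l ∣ N → l₀ ≤ l → |(a l : ℝ)| ≤ 2 * (l : ℝ) ^ (3 / 4 : ℝ)) :
    ∃ (h : ℕ → ℤ) (A δ : ℝ), MU71.CoefData a h A δ := by
  set L : ℕ := max l₀ 256 with hLdef
  have hL : 256 ≤ L := le_max_right _ _
  have hb3 : ∀ l : ℕ, l.Prime → ¬ l ∣ N → L ≤ l → |(a l : ℝ)| ≤ 2 * (l : ℝ) ^ (3 / 4 : ℝ) :=
    fun l h1 h2 h3 => hb2 l h1 h2 ((le_max_left _ _).trans h3)
  have hL0 : (0 : ℝ) < L := by positivity
  have hL1 : (256 : ℝ) ≤ L := by exact_mod_cast hL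
  set τ : ℝ := 1 / (L : ℝ) ^ 2 with hτdef
  have hτ0 : 0 < τ := by positivity
  have hτ : τ ≤ 1 / 8 := by
    apply one_div_le_one_div_of_le (by norm_num)
    nlinarith
  obtain ⟨A, hA1, hA⟩ := divisor_bound (ε := τ / 4) (by positivity) (by linarith)
  have hH := hr_of hgood hbad
  have key : ∀ f : ArithmeticFunction ℤ, f.IsMultiplicative →
      (∀ l : ℕ, l.Prime → ∀ k : ℕ, 1 ≤ k →
        |(f (l ^ k) : ℝ)| ≤ ((k : ℝ) + 1) * ((l : ℝ) ^ k) ^ (1 - τ)) →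
      ∀ m : ℕ, 1 ≤ m → |(f m : ℝ)| ≤ A * (m : ℝ) ^ (1 - τ / 2) := by
    intro f hf hloc m hm
    have hm1 : (1 : ℝ) ≤ m := by exact_mod_cast hm
    have hm0 : (0 : ℝ) < m := by linarith
    have h1 := mult_div_le hf hloc (n := m) (by omega)
    calc |(f m : ℝ)| ≤ m.divisors.card * (m : ℝ) ^ (1 - τ) := h1
      _ ≤ (A * (m : ℝ) ^ (τ / 4)) * (m : ℝ) ^ (1 - τ) := by
          gcongr
          exact hA m hm
      _ = A * (m : ℝ) ^ (τ / 4 + (1 - τ)) := by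
          rw [Real.rpow_add hm0]
          ring
      _ ≤ A * (m : ℝ) ^ (1 - τ / 2) := by
          gcongr
          linarith
  refine ⟨fun n => MU1.inv N a n, A, τ / 2, ?_⟩
  constructor
  · positivity
  · linarith
  · exact hA1
  · exact ha0
  · exact key (MU1.af a ha0) (MU1.af_mult ha0 ha1 hH) (fun l hl k _ =>
      local_a ha1 hgood hbad hL hb hb3 hl k)
  · exact key (MU1.inv N a) (MU1.inv_mult N a) (fun l hl k _ => by
      rw [MU1.inv_prime_pow N a hl]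
      exact local_inv ha1 hgood hbad hL hb hb3 hl k)
  · intro x hx
    have := hA x hx
    rwa [show τ / 2 / 2 = τ / 4 by ring]
  · intro x hx
    have h := MU1.conv_eq_one ha0 ha1 hH
    have h2 : (MU1.inv N a * MU1.af a ha0) x = (1 : ArithmeticFunction ℤ) x := by rw [h]
    rw [ArithmeticFunction.mul_apply,
      Nat.sum_divisorsAntidiagonal (fun x y => MU1.inv N a x * MU1.af a ha0 y),
      ArithmeticFunction.one_apply] at h2
    exact h2

theorem exists_coef (a : ℕ → ℤ) (ha0 : a 0 = 0) (ha1 : a 1 = 1)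
    (hgood : ∀ l : ℕ, l.Prime → ¬ l ∣ N → ∀ n : ℕ,
      a (l * n) + (if l ∣ n then (l : ℤ) * a (n / l) else 0) = a l * a n)
    (hbad : ∀ l : ℕ, l.Prime → l ∣ N → |a l| ≤ 1 ∧ ∀ n : ℕ, a (l * n) = a l * a n)
    (hb : ∀ l : ℕ, l.Prime → ¬ l ∣ N → |(a l : ℝ)| ≤ l ∧ |(a l : ℝ)| ≤ 2 * (l : ℝ) ^ (3 / 4 : ℝ)) :
    ∃ (h : ℕ → ℤ) (A δ : ℝ), MU71.CoefData a h A δ :=
  exists_coef' ha0 ha1 hgood hbad (fun l h1 h2 => (hb l h1 h2).1) 0
    (fun l h1 h2 _ => (hb l h1 h2).2)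

end

end Pool.Agent.MU74
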