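import Mathlib

/-!
# The bound for the `l¹` norm of the coefficients of a form of weight two
-/

set_option autoImplicit false

open Filter Topology Complex Function
open scoped Real

namespace Pool.Agent.MU74

/-- Bessel's inequality for absolutely convergent Fourier series. -/
theorem bessel {w B : ℝ} (hw : 0 < w) {d : ℕ → ℂ} (hd : Summable fun n => ‖d n‖)
    (hB0 : 0 ≤ B)
    (hB : ∀ x : ℝ, ‖∑' n : ℕ, d n * cexp (2 * π * Complex.I * n * x / w)‖ ≤ B)
    (s : Finset ℕ) : ∑ n ∈ s, ‖d n‖ ^ 2 ≤ B ^ 2 := by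
  have : Fact (0 < w) := ⟨hw⟩
  have hnorm : ∀ n : ℕ, ‖d n • (fourier (n : ℤ) : C(AddCircle w, ℂ))‖ = ‖d n‖ := by
    intro n
    rw [norm_smul, fourier_norm, mul_one]
  have hsum : Summable (fun n : ℕ => d n • (fourier (n : ℤ) : C(AddCircle w, ℂ))) := by
    refine Summable.of_norm ?_
    simp_rw [hnorm]
    exact hd
  set F : C(AddCircle w, ℂ) := ∑' n : ℕ, d n • (fourier (n : ℤ) : C(AddCircle w, ℂ)) with hF
  have hFs : HasSum (fun n : ℕ => d n • (fourier (n : ℤ) : C(AddCircle w, ℂ))) F := hsum.hasSum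
  have hFB : ‖F‖ ≤ B := by
    rw [ContinuousMap.norm_le _ hB0]
    intro θ
    obtain ⟨x, rfl⟩ := QuotientAddGroup.mk_surjective θ
    have h1 : HasSum (fun n : ℕ => (d n • (fourier (n : ℤ) : C(AddCircle w, ℂ)))
        (x : AddCircle w)) (F (x : AddCircle w)) :=
      ContinuousMap.hasSum_apply hFs (x : AddCircle w)
    have h2 : ∀ n : ℕ, (d n • (fourier (n : ℤ) : C(AddCircle w, ℂ))) (x : AddCircle w) =
        d n * cexp (2 * π * Complex.I * n * x / w) := by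
      intro n
      rw [ContinuousMap.smul_apply, fourier_coe_apply, smul_eq_mul]
      push_cast
      rfl
    simp_rw [h2] at h1
    have h3 := hB x
    rw [h1.tsum_eq] at h3
    exact h3
  set X := ContinuousMap.toLp (E := ℂ) 2 (@AddCircle.haarAddCircle w _) ℂ F with hX
  have hXs : HasSum (fun n : ℕ => d n • @fourierLp w _ 2 _ (n : ℤ)) X := by
    have := (ContinuousMap.toLp (E := ℂ) 2 (@AddCircle.haarAddCircle w _) ℂ).hasSum hFs
    simpa only [map_smul] using this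
  have hXB : ‖X‖ ≤ B := by
    have h1 : ‖X‖ ≤ ‖ContinuousMap.toLp (E := ℂ) 2 (@AddCircle.haarAddCircle w _) ℂ‖ * ‖F‖ :=
      ContinuousLinearMap.le_opNorm _ _
    have h2 : ‖ContinuousMap.toLp (E := ℂ) 2 (@AddCircle.haarAddCircle w _) ℂ‖ ≤ 1 := by
      refine (ContinuousMap.toLp_norm_le _).trans ?_
      simp [MeasureTheory.measureUnivNNReal]
    calc ‖X‖ ≤ _ := h1
      _ ≤ 1 * B := mul_le_mul h2 hFB (norm_nonneg _) zero_le_one
      _ = B := one_mul B
  have horth : Orthonormal ℂ (fun n : ℕ => @fourierLp w _ 2 _ (n : ℤ)) :=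
    (orthonormal_fourier (T := w)).comp _ Nat.cast_injective
  have hinner : ∀ m : ℕ, inner ℂ (@fourierLp w _ 2 _ (m : ℤ)) X = d m := by
    intro m
    have h1 : HasSum (fun n : ℕ => inner ℂ (@fourierLp w _ 2 _ (m : ℤ))
        (d n • @fourierLp w _ 2 _ (n : ℤ))) (inner ℂ (@fourierLp w _ 2 _ (m : ℤ)) X) :=
      (innerSL ℂ (@fourierLp w _ 2 _ (m : ℤ))).hasSum hXs
    have h2 : ∀ n : ℕ, inner ℂ (@fourierLp w _ 2 _ (m : ℤ)) (d n • @fourierLp w _ 2 _ (n : ℤ)) =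
        if n = m then d m else 0 := by
      intro n
      rw [inner_smul_right]
      have h3 := (orthonormal_iff_ite.1 horth) m n
      rw [h3]
      by_cases h : n = m
      · subst h
        simp
      · rw [if_neg (fun h' => h h'.symm), if_neg h, mul_zero]
    simp_rw [h2] at h1
    exact h1.unique (hasSum_ite_eq m (d m))
  have h := horth.sum_inner_products_le (s := s) X
  simp_rw [hinner] at h
  calc ∑ n ∈ s, ‖d n‖ ^ 2 ≤ ‖X‖ ^ 2 := h
    _ ≤ B ^ 2 := pow_le_pow_left₀ (norm_nonneg _) hXB 2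

open UpperHalfPlane hiding I

theorem l1_of_bound {g : ℍ → ℂ} {c : ℕ → ℂ} {w C : ℝ} (hw : 0 < w) (hc0 : c 0 = 0)
    (hg : ∀ z : ℍ, HasSum (fun n : ℕ => c n * cexp (2 * π * Complex.I * n * z / w)) (g z))
    (hC : ∀ z : ℍ, ‖g z‖ * z.im ≤ C) :
    ∃ C' : ℝ, 0 ≤ C' ∧ ∀ t : ℝ, 0 < t →
      Summable (fun n : ℕ => ‖c n‖ * Real.exp (-(2 * π * n * t / w))) ∧
      ∑' n : ℕ, ‖c n‖ * Real.exp (-(2 * π * n * t / w)) ≤ C' * t ^ (-(3 / 2) : ℝ) := by
  have hC0 : 0 ≤ C := (mul_nonneg (norm_nonneg _) UpperHalfPlane.I.im_pos.le).trans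
    (hC UpperHalfPlane.I)
  have hpi := Real.pi_pos
  refine ⟨2 * C * √(w / (2 * π)), by positivity, fun t ht => ?_⟩
  obtain ⟨y, hy⟩ : ∃ y : ℝ, y = t / 2 := ⟨_, rfl⟩
  have hy0 : 0 < y := by rw [hy]; positivity
  obtain ⟨u, hu⟩ : ∃ u : ℝ, u = 2 * π * t / w := ⟨_, rfl⟩
  have hu0 : 0 < u := by rw [hu]; positivity
  obtain ⟨d, hd⟩ : ∃ d : ℕ → ℂ, d = fun n => c n * (Real.exp (-(2 * π * n * y / w)) : ℂ) :=
    ⟨_, rfl⟩
  have hdn : ∀ n, ‖d n‖ = ‖c n‖ * Real.exp (-(2 * π * n * y / w)) := by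
    intro n
    rw [hd, norm_mul, Complex.norm_real, Real.norm_of_nonneg (Real.exp_pos _).le]
  have him : ∀ x : ℝ, 0 < ((x : ℂ) + y * Complex.I).im := by
    intro x
    simpa using hy0
  have hterm : ∀ x : ℝ, HasSum (fun n : ℕ => d n * cexp (2 * π * Complex.I * n * x / w))
      (g ⟨(x : ℂ) + y * Complex.I, him x⟩) := by
    intro x
    have h := hg ⟨(x : ℂ) + y * Complex.I, him x⟩
    have hfun : (fun n : ℕ => d n * cexp (2 * π * Complex.I * n * x / w)) =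
        (fun n : ℕ => c n * cexp (2 * π * Complex.I * n *
          ((⟨(x : ℂ) + y * Complex.I, him x⟩ : ℍ) : ℂ) / w)) := by
      funext n
      rw [hd]
      simp only
      rw [Complex.ofReal_exp, mul_assoc, ← Complex.exp_add]
      congr 2
      push_cast
      have hI : Complex.I * Complex.I = -1 := Complex.I_mul_I
      have hwc : (w : ℂ) ≠ 0 := Complex.ofReal_ne_zero.2 hw.ne'
      field_simp
      linear_combination (-((n : ℂ) * y)) * hI
    rw [hfun]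
    exact h
  have hsd : Summable fun n => ‖d n‖ := by
    have h := (hterm 0).summable.norm
    refine h.congr fun n => ?_
    rw [norm_mul]
    simp
  have hB : ∀ x : ℝ, ‖∑' n : ℕ, d n * cexp (2 * π * Complex.I * n * x / w)‖ ≤ C / y := by
    intro x
    rw [(hterm x).tsum_eq, le_div_iff₀ hy0]
    have h := hC ⟨(x : ℂ) + y * Complex.I, him x⟩
    have h1 : (⟨(x : ℂ) + y * Complex.I, him x⟩ : ℍ).im = y := by
      change ((x : ℂ) + y * Complex.I).im = y
      simp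
    rwa [h1] at h
  have hbes := fun s => bessel hw hsd (by positivity : 0 ≤ C / y) hB s
  have hr1 : Real.exp (-u) < 1 := by
    rw [Real.exp_lt_one_iff]
    linarith
  have hr0 : 0 < Real.exp (-u) := Real.exp_pos _
  have hgeo : HasSum (fun n : ℕ => Real.exp (-u) ^ n - (if n = 0 then (1 : ℝ) else 0))
      ((1 - Real.exp (-u))⁻¹ - 1) :=
    (hasSum_geometric_of_lt_one hr0.le hr1).sub (hasSum_ite_eq 0 1)
  have hgeo1 : (1 - Real.exp (-u))⁻¹ - 1 ≤ 1 / u := by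
    have h1 : 0 < 1 - Real.exp (-u) := by linarith
    have h2 : 1 + u ≤ Real.exp u := by linarith [Real.add_one_le_exp u]
    have h3 : Real.exp u * Real.exp (-u) = 1 := by rw [← Real.exp_add]; simp
    have h4 : (1 + u) * Real.exp (-u) ≤ 1 :=
      (mul_le_mul_of_nonneg_right h2 hr0.le).trans h3.le
    rw [le_div_iff₀ hu0, sub_mul, inv_mul_eq_div, sub_le_iff_le_add, div_le_iff₀ h1]
    linarith
  obtain ⟨e, he⟩ : ∃ e : ℕ → ℝ, e = fun n : ℕ => if n = 0 then (0 : ℝ) else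
      Real.exp (-(2 * π * n * y / w)) := ⟨_, rfl⟩
  have hesq : ∀ n, e n ^ 2 = Real.exp (-u) ^ n - (if n = 0 then (1 : ℝ) else 0) := by
    intro n
    rw [he]
    by_cases hn : n = 0
    · simp [hn]
    · simp only [hn, if_false, sub_zero]
      rw [← Real.exp_nat_mul, ← Real.exp_nat_mul]
      congr 1
      rw [hu, hy]
      push_cast
      field_simp
  have hesum : ∀ s : Finset ℕ, ∑ n ∈ s, e n ^ 2 ≤ 1 / u := by
    intro s
    calc ∑ n ∈ s, e n ^ 2 = ∑ n ∈ s, (Real.exp (-u) ^ n - (if n = 0 then (1 : ℝ) else 0)) :=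
          Finset.sum_congr rfl fun n _ => hesq n
      _ ≤ (1 - Real.exp (-u))⁻¹ - 1 :=
          sum_le_hasSum s (fun n _ => by rw [← hesq n]; exact sq_nonneg _) hgeo
      _ ≤ 1 / u := hgeo1
  have hfe : ∀ n : ℕ, ‖c n‖ * Real.exp (-(2 * π * n * t / w)) = ‖d n‖ * e n := by
    intro n
    rw [hdn, he]
    by_cases hn : n = 0
    · subst hn
      simp [hc0]
    · simp only [hn, if_false]
      rw [mul_assoc ‖c n‖, ← Real.exp_add, hy]
      congr 2
      ring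
  obtain ⟨K, hK⟩ : ∃ K : ℝ, K = 2 * C * √(w / (2 * π)) * t ^ (-(3 / 2) : ℝ) := ⟨_, rfl⟩
  have hK0 : 0 ≤ K := by rw [hK]; positivity
  have hKsq : K ^ 2 = (C / y) ^ 2 * (1 / u) := by
    have h1 : (t ^ (-(3 / 2) : ℝ)) ^ 2 = (t ^ 3)⁻¹ := by
      rw [← Real.rpow_natCast, ← Real.rpow_mul ht.le, ← Real.rpow_natCast, ← Real.rpow_neg ht.le]
      congr 1
      norm_num
    rw [hK, mul_pow, mul_pow, h1, Real.sq_sqrt (by positivity), hy, hu]
    field_simp
  have hfin : ∀ s : Finset ℕ, ∑ n ∈ s, ‖c n‖ * Real.exp (-(2 * π * n * t / w)) ≤ K := by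
    intro s
    have h0 : 0 ≤ ∑ n ∈ s, ‖c n‖ * Real.exp (-(2 * π * n * t / w)) :=
      Finset.sum_nonneg fun n _ => by positivity
    refine (sq_le_sq₀ h0 hK0).1 ?_
    rw [Finset.sum_congr rfl fun n _ => hfe n]
    calc (∑ n ∈ s, ‖d n‖ * e n) ^ 2 ≤ (∑ n ∈ s, ‖d n‖ ^ 2) * ∑ n ∈ s, e n ^ 2 :=
          Finset.sum_mul_sq_le_sq_mul_sq _ _ _
      _ ≤ (C / y) ^ 2 * (1 / u) :=
          mul_le_mul (hbes s) (hesum s) (Finset.sum_nonneg fun n _ => sq_nonneg _) (sq_nonneg _)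
      _ = K ^ 2 := hKsq.symm
  have hnn : (0 : ℕ → ℝ) ≤ fun n : ℕ => ‖c n‖ * Real.exp (-(2 * π * n * t / w)) := fun n => by
    simp only [Pi.zero_apply]
    positivity
  rw [← hK]
  exact ⟨summable_of_sum_le hnn hfin, Real.tsum_le_of_sum_le hnn hfin⟩

end Pool.Agent.MU74
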