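import Mathlib

/-!
# Mordell's fourth moment bound for the number of points of a cubic

For a Weierstrass curve over the field with `l ≥ 5` elements with nonzero discriminant, the number
of affine points differs from `l` by at most `2 l^(3/4)`.
-/

set_option autoImplicit false

open Finset

namespace Pool.Agent.MU74.Mordell

variable {F : Type*} [Field F] [Fintype F] [DecidableEq F]

/-- value of the cubic with coefficient vector `c` -/
def ev (c : Fin 4 → F) (x : F) : F := c 0 + c 1 * x + c 2 * x ^ 2 + c 3 * x ^ 3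

lemma ev_add (c d : Fin 4 → F) (x : F) : ev (c + d) x = ev c x + ev d x := by
  simp only [ev, Pi.add_apply]; ring

lemma ev_smul (t : F) (d : Fin 4 → F) (x : F) : ev (t • d) x = t * ev d x := by
  simp only [ev, Pi.smul_apply, smul_eq_mul]; ring

/-- the character sum -/
noncomputable def SS (c : Fin 4 → F) : ℤ := ∑ x : F, quadraticChar F (ev c x)

lemma abs_chi_le (a : F) : |quadraticChar F a| ≤ 1 := by
  by_cases h : a = 0
  · simp [h]
  · rcases quadraticChar_dichotomy h with h1 | h1 <;> simp [h1]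

/-- cubic vanishing at three points -/
lemma exists_cubic (y1 y2 y3 : F) : ∃ r : Fin 4 → F, ∀ x, ev r x = (x - y1) * (x - y2) * (x - y3) := by
  refine ⟨![-(y1 * y2 * y3), y1 * y2 + y1 * y3 + y2 * y3, -(y1 + y2 + y3), 1], fun x => ?_⟩
  simp only [ev, Matrix.cons_val_zero, Matrix.cons_val_one, Matrix.cons_val]
  ring

/-- the product over four points summed over all cubics -/
noncomputable def EE (x1 x2 x3 x4 : F) : ℤ :=
  ∑ c : Fin 4 → F, quadraticChar F (ev c x1) * quadraticChar F (ev c x2) *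
    quadraticChar F (ev c x3) * quadraticChar F (ev c x4)

lemma EE_zero (hF : ringChar F ≠ 2) {x1 x2 x3 x4 : F} (h2 : x1 ≠ x2) (h3 : x1 ≠ x3) (h4 : x1 ≠ x4) :
    EE x1 x2 x3 x4 = 0 := by
  obtain ⟨r, hr⟩ := exists_cubic x2 x3 x4
  have hr1 : ev r x1 ≠ 0 := by
    rw [hr]
    exact mul_ne_zero (mul_ne_zero (sub_ne_zero.2 h2) (sub_ne_zero.2 h3)) (sub_ne_zero.2 h4)
  have hr2 : ev r x2 = 0 := by rw [hr]; ring
  have hr3 : ev r x3 = 0 := by rw [hr]; ring
  have hr4 : ev r x4 = 0 := by rw [hr]; ring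
  have key : ∀ t : F, EE x1 x2 x3 x4 = ∑ c : Fin 4 → F,
      quadraticChar F (ev c x1 + t * ev r x1) * (quadraticChar F (ev c x2) *
        quadraticChar F (ev c x3) * quadraticChar F (ev c x4)) := by
    intro t
    unfold EE
    rw [← Equiv.sum_comp (Equiv.addRight (t • r))]
    refine Finset.sum_congr rfl fun c _ => ?_
    simp only [Equiv.coe_addRight, ev_add, ev_smul, hr2, hr3, hr4, mul_zero, add_zero]
    ring
  have h5 : (Fintype.card F : ℤ) * EE x1 x2 x3 x4 = 0 := by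
    have h6 : ∑ t : F, EE x1 x2 x3 x4 = (Fintype.card F : ℤ) * EE x1 x2 x3 x4 := by
      rw [Finset.sum_const, Finset.card_univ, nsmul_eq_mul]
    rw [← h6, Finset.sum_congr rfl (fun t _ => key t), Finset.sum_comm]
    refine Finset.sum_eq_zero fun c _ => ?_
    rw [← Finset.sum_mul]
    have h7 : ∑ t : F, quadraticChar F (ev c x1 + t * ev r x1) = 0 := by
      have h8 := Equiv.sum_comp ((Equiv.mulRight₀ (ev r x1) hr1).trans (Equiv.addLeft (ev c x1)))
        (fun y => quadraticChar F y)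
      rw [quadraticChar_sum_zero hF] at h8
      simpa using h8
    rw [h7, zero_mul]
  have h8 : (Fintype.card F : ℤ) ≠ 0 := by exact_mod_cast Fintype.card_ne_zero
  exact (mul_eq_zero.1 h5).resolve_left h8

lemma EE_le (x1 x2 x3 x4 : F) : EE x1 x2 x3 x4 ≤ (Fintype.card F : ℤ) ^ 4 := by
  unfold EE
  calc _ ≤ ∑ c : Fin 4 → F, (1 : ℤ) := by
        refine Finset.sum_le_sum fun c _ => ?_
        refine le_trans (le_abs_self _) ?_
        rw [abs_mul, abs_mul, abs_mul]
        have h1 := abs_chi_le (ev c x1)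
        have h2 := abs_chi_le (ev c x2)
        have h3 := abs_chi_le (ev c x3)
        have h4 := abs_chi_le (ev c x4)
        have h5 := mul_le_mul h1 h2 (abs_nonneg _) zero_le_one
        have h6 := mul_le_mul h5 h3 (abs_nonneg _) (by norm_num)
        have h7 := mul_le_mul h6 h4 (abs_nonneg _) (by norm_num)
        simpa using h7
    _ = (Fintype.card F : ℤ) ^ 4 := by
        rw [Finset.sum_const, Finset.card_univ, Fintype.card_fun, Fintype.card_fin]
        simp

lemma EE_swap12 (x1 x2 x3 x4 : F) : EE x1 x2 x3 x4 = EE x2 x1 x3 x4 := by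
  unfold EE; exact Finset.sum_congr rfl fun c _ => by ring
lemma EE_swap13 (x1 x2 x3 x4 : F) : EE x1 x2 x3 x4 = EE x3 x2 x1 x4 := by
  unfold EE; exact Finset.sum_congr rfl fun c _ => by ring
lemma EE_swap14 (x1 x2 x3 x4 : F) : EE x1 x2 x3 x4 = EE x4 x2 x3 x1 := by
  unfold EE; exact Finset.sum_congr rfl fun c _ => by ring

lemma EE_bound (hF : ringChar F ≠ 2) (x1 x2 x3 x4 : F) : EE x1 x2 x3 x4 ≤
    (if x1 = x2 ∧ x3 = x4 then (Fintype.card F : ℤ) ^ 4 else 0) +
    (if x1 = x3 ∧ x2 = x4 then (Fintype.card F : ℤ) ^ 4 else 0) +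
    (if x1 = x4 ∧ x2 = x3 then (Fintype.card F : ℤ) ^ 4 else 0) := by
  have hc : (0 : ℤ) ≤ (Fintype.card F : ℤ) ^ 4 := by positivity
  have hle := EE_le x1 x2 x3 x4
  by_cases hA : x1 = x2 ∧ x3 = x4
  · rw [if_pos hA]; split_ifs <;> linarith
  by_cases hB : x1 = x3 ∧ x2 = x4
  · rw [if_pos hB]; split_ifs <;> linarith
  by_cases hC : x1 = x4 ∧ x2 = x3
  · rw [if_pos hC]; split_ifs <;> linarith
  rw [if_neg hA, if_neg hB, if_neg hC]
  -- some index is isolated
  have h0 : EE x1 x2 x3 x4 = 0 := by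
    by_cases h12 : x1 = x2
    · have h34 : x3 ≠ x4 := fun h => hA ⟨h12, h⟩
      by_cases h13 : x1 = x3
      · -- x4 isolated
        rw [EE_swap14]
        exact EE_zero hF (by rw [← h12, h13]; exact fun h => h34 h.symm) (fun h => h34 h.symm)
          (by rw [h13]; exact fun h => h34 h.symm)
      · rw [EE_swap13]
        refine EE_zero hF (by rw [← h12]; exact fun h => h13 h.symm) (fun h => h13 h.symm) h34
    · by_cases h13 : x1 = x3
      · have h24 : x2 ≠ x4 := fun h => hB ⟨h13, h⟩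
        rw [EE_swap12]
        exact EE_zero hF (fun h => h12 h.symm) (by rw [← h13]; exact fun h => h12 h.symm) h24
      · by_cases h14 : x1 = x4
        · have h23 : x2 ≠ x3 := fun h => hC ⟨h14, h⟩
          rw [EE_swap12]
          exact EE_zero hF (fun h => h12 h.symm) h23 (by rw [← h14]; exact fun h => h12 h.symm)
        · exact EE_zero hF h12 h13 h14
  rw [h0]; simp

lemma pow4_sum (f : F → ℤ) : (∑ x, f x) ^ 4 =
    ∑ x1, ∑ x2, ∑ x3, ∑ x4, f x1 * f x2 * f x3 * f x4 := by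
  have h : (∑ x, f x) ^ 4 = (∑ x, f x) * ((∑ x, f x) * ((∑ x, f x) * ∑ x, f x)) := by ring
  rw [h, Finset.sum_mul]
  refine Finset.sum_congr rfl fun x1 _ => ?_
  rw [Finset.sum_mul, Finset.mul_sum]
  refine Finset.sum_congr rfl fun x2 _ => ?_
  rw [Finset.sum_mul, Finset.mul_sum, Finset.mul_sum]
  refine Finset.sum_congr rfl fun x3 _ => ?_
  rw [Finset.mul_sum, Finset.mul_sum, Finset.mul_sum]
  exact Finset.sum_congr rfl fun x4 _ => by ring

lemma count1 (C : ℤ) : ∑ x1 : F, ∑ x2 : F, ∑ x3 : F, ∑ x4 : F,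
    (if x1 = x2 ∧ x3 = x4 then C else 0) = (Fintype.card F : ℤ) ^ 2 * C := by
  have h : ∀ x1 x2 : F, ∑ x3 : F, ∑ x4 : F, (if x1 = x2 ∧ x3 = x4 then C else 0) =
      if x1 = x2 then (Fintype.card F : ℤ) * C else 0 := by
    intro x1 x2
    by_cases h : x1 = x2
    · simp [h]
    · simp [h]
  simp_rw [h]
  simp only [Finset.sum_ite_eq, Finset.mem_univ, if_true, Finset.sum_const, Finset.card_univ,
    nsmul_eq_mul]
  ring

lemma count2 (C : ℤ) : ∑ x1 : F, ∑ x2 : F, ∑ x3 : F, ∑ x4 : F,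
    (if x1 = x3 ∧ x2 = x4 then C else 0) = (Fintype.card F : ℤ) ^ 2 * C := by
  have h : ∀ x1 x2 : F, ∑ x3 : F, ∑ x4 : F, (if x1 = x3 ∧ x2 = x4 then C else 0) = C := by
    intro x1 x2
    have h1 : ∀ x3 : F, ∑ x4 : F, (if x1 = x3 ∧ x2 = x4 then C else 0) =
        if x1 = x3 then C else 0 := by
      intro x3
      by_cases h : x1 = x3
      · simp [h]
      · simp [h]
    simp_rw [h1]
    simp
  simp_rw [h]
  simp only [Finset.sum_const, Finset.card_univ, nsmul_eq_mul]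
  ring

lemma count3 (C : ℤ) : ∑ x1 : F, ∑ x2 : F, ∑ x3 : F, ∑ x4 : F,
    (if x1 = x4 ∧ x2 = x3 then C else 0) = (Fintype.card F : ℤ) ^ 2 * C := by
  have h : ∀ x1 x2 : F, ∑ x3 : F, ∑ x4 : F, (if x1 = x4 ∧ x2 = x3 then C else 0) = C := by
    intro x1 x2
    have h1 : ∀ x3 : F, ∑ x4 : F, (if x1 = x4 ∧ x2 = x3 then C else 0) =
        if x2 = x3 then C else 0 := by
      intro x3
      by_cases h : x2 = x3
      · simp [h]
      · simp [h]
    simp_rw [h1]
    simp
  simp_rw [h]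
  simp only [Finset.sum_const, Finset.card_univ, nsmul_eq_mul]
  ring

/-- **The fourth moment.** -/
theorem fourth_moment (hF : ringChar F ≠ 2) :
    ∑ c : Fin 4 → F, (SS c) ^ 4 ≤ 3 * (Fintype.card F : ℤ) ^ 6 := by
  have h1 : ∀ c : Fin 4 → F, (SS c) ^ 4 = ∑ x1 : F, ∑ x2 : F, ∑ x3 : F, ∑ x4 : F,
      quadraticChar F (ev c x1) * quadraticChar F (ev c x2) *
        quadraticChar F (ev c x3) * quadraticChar F (ev c x4) :=
    fun c => pow4_sum (fun x => quadraticChar F (ev c x))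
  simp_rw [h1]
  rw [Finset.sum_comm]
  have h2 : ∀ x1 : F, ∑ c : Fin 4 → F, ∑ x2 : F, ∑ x3 : F, ∑ x4 : F,
      quadraticChar F (ev c x1) * quadraticChar F (ev c x2) *
        quadraticChar F (ev c x3) * quadraticChar F (ev c x4) =
      ∑ x2 : F, ∑ x3 : F, ∑ x4 : F, EE x1 x2 x3 x4 := by
    intro x1
    rw [Finset.sum_comm]
    refine Finset.sum_congr rfl fun x2 _ => ?_
    rw [Finset.sum_comm]
    refine Finset.sum_congr rfl fun x3 _ => ?_
    rw [Finset.sum_comm]
    rfl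
  simp_rw [h2]
  calc ∑ x1 : F, ∑ x2 : F, ∑ x3 : F, ∑ x4 : F, EE x1 x2 x3 x4
      ≤ ∑ x1 : F, ∑ x2 : F, ∑ x3 : F, ∑ x4 : F,
        ((if x1 = x2 ∧ x3 = x4 then (Fintype.card F : ℤ) ^ 4 else 0) +
        (if x1 = x3 ∧ x2 = x4 then (Fintype.card F : ℤ) ^ 4 else 0) +
        (if x1 = x4 ∧ x2 = x3 then (Fintype.card F : ℤ) ^ 4 else 0)) := by
        refine Finset.sum_le_sum fun x1 _ => Finset.sum_le_sum fun x2 _ =>
          Finset.sum_le_sum fun x3 _ => Finset.sum_le_sum fun x4 _ => EE_bound hF x1 x2 x3 x4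
    _ = 3 * (Fintype.card F : ℤ) ^ 6 := by
        simp only [Finset.sum_add_distrib]
        rw [count1, count2, count3]
        ring

/-- the orbit of `X³ + A X + B` -/
def orb (A B : F) (P : F × F × F) : Fin 4 → F :=
  ![P.2.2 * P.2.1 ^ 3 + P.2.2 * A * P.2.1 + P.2.2 * B,
    3 * P.2.2 * P.1 * P.2.1 ^ 2 + P.2.2 * A * P.1, 3 * P.2.2 * P.1 ^ 2 * P.2.1, P.2.2 * P.1 ^ 3]

lemma ev_orb (A B : F) (P : F × F × F) (x : F) : ev (orb A B P) x =
    P.2.2 * ((P.1 * x + P.2.1) ^ 3 + A * (P.1 * x + P.2.1) + B) := by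
  simp only [ev, orb, Matrix.cons_val_zero, Matrix.cons_val_one, Matrix.cons_val]
  ring

lemma SS_orb (A B : F) {P : F × F × F} (hu : P.1 ≠ 0) (hw : P.2.2 ≠ 0) :
    SS (orb A B P) = quadraticChar F P.2.2 * ∑ x : F, quadraticChar F (x ^ 3 + A * x + B) := by
  unfold SS
  have h1 := Equiv.sum_comp ((Equiv.mulLeft₀ P.1 hu).trans (Equiv.addRight P.2.1))
    (fun y => quadraticChar F (y ^ 3 + A * y + B))
  rw [← h1, Finset.mul_sum]
  refine Finset.sum_congr rfl fun x _ => ?_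
  rw [ev_orb, map_mul]
  simp

/-- parameters -/
def par (F : Type*) [Field F] [Fintype F] [DecidableEq F] : Finset (F × F × F) :=
  (univ.erase 0) ×ˢ (univ ×ˢ (univ.erase 0))

lemma mem_par {P : F × F × F} : P ∈ par F ↔ P.1 ≠ 0 ∧ P.2.2 ≠ 0 := by
  simp [par]

lemma card_par : (par F).card = (Fintype.card F - 1) * (Fintype.card F * (Fintype.card F - 1)) := by
  simp [par, Finset.card_product, Finset.card_erase_of_mem, Finset.card_univ]

lemma card_pow_le (n : ℕ) (hn : 0 < n) (c : F) :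
    ((univ : Finset F).filter (fun u => u ^ n = c)).card ≤ n := by
  have h1 : (univ : Finset F).filter (fun u => u ^ n = c) ⊆ (Polynomial.nthRoots n c).toFinset := by
    intro u hu
    rw [Finset.mem_filter] at hu
    rw [Multiset.mem_toFinset, Polynomial.mem_nthRoots hn]
    exact hu.2
  exact (Finset.card_le_card h1).trans ((Multiset.toFinset_card_le _).trans
    (Polynomial.card_nthRoots n c))

lemma fiber_card (h2 : (2 : F) ≠ 0) (h3 : (3 : F) ≠ 0) {A B : F} (hAB : A ≠ 0 ∨ B ≠ 0)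
    (c : Fin 4 → F) : ((par F).filter (fun P => orb A B P = c)).card ≤ 3 := by
  rcases Finset.eq_empty_or_nonempty ((par F).filter (fun P => orb A B P = c)) with h | ⟨Q, hQ⟩
  · rw [h]; simp
  rw [Finset.mem_filter, mem_par] at hQ
  obtain ⟨⟨hu, hw⟩, hQc⟩ := hQ
  -- relations in the fibre
  have key : ∀ P ∈ (par F).filter (fun P => orb A B P = c),
      P.2.1 = Q.2.1 / Q.1 * P.1 ∧ P.2.2 = Q.2.2 * Q.1 ^ 3 / P.1 ^ 3 ∧
      A * P.1 ^ 2 = A * Q.1 ^ 2 ∧ B * P.1 ^ 3 = B * Q.1 ^ 3 := by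
    intro P hP
    rw [Finset.mem_filter, mem_par] at hP
    obtain ⟨⟨hpu, hpw⟩, hPc⟩ := hP
    have heq : orb A B P = orb A B Q := hPc.trans hQc.symm
    have e3 := congrFun heq 3
    have e2 := congrFun heq 2
    have e1 := congrFun heq 1
    have e0 := congrFun heq 0
    simp only [orb, Matrix.cons_val_zero, Matrix.cons_val_one, Matrix.cons_val] at e0 e1 e2 e3
    obtain ⟨u, v, w⟩ := P
    obtain ⟨u', v', w'⟩ := Q
    simp only at *
    have hw' : w = w' * u' ^ 3 / u ^ 3 := by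
      rw [eq_div_iff (pow_ne_zero 3 hpu)]; exact e3
    have hv : v = v' / u' * u := by
      have h5 : 3 * w * u ^ 2 * v * u = 3 * w' * u' ^ 2 * v' * u := by rw [e2]
      have h6 : 3 * (w * u ^ 3) * v = 3 * w' * u' ^ 2 * v' * u := by rw [← h5]; ring
      rw [e3] at h6
      rw [div_mul_eq_mul_div, eq_div_iff hu]
      have h7 : (3 * w' * u' ^ 2) * (v * u') = (3 * w' * u' ^ 2) * (v' * u) := by
        linear_combination h6
      exact mul_left_cancel₀ (mul_ne_zero (mul_ne_zero h3 hw) (pow_ne_zero 2 hu)) h7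
    have hvu : v * u' = v' * u := by
      rw [hv]; field_simp
    have hw3 : w' * u' ^ 3 ≠ 0 := mul_ne_zero hw (pow_ne_zero 3 hu)
    have hA : A * u ^ 2 = A * u' ^ 2 := by
      have h8 : (w' * u' ^ 3) * (A * u' ^ 2) = (w' * u' ^ 3) * (A * u ^ 2) := by
        linear_combination (u' ^ 2 * u ^ 2) * e1 - (3 * w * u ^ 3 * (v * u' + v' * u)) * hvu -
          (3 * v' ^ 2 * u ^ 2 + A * u' ^ 2) * e3
      exact (mul_left_cancel₀ hw3 h8).symm
    have hB : B * u ^ 3 = B * u' ^ 3 := by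
      have h8 : (w' * u' ^ 3) * (B * u' ^ 3) = (w' * u' ^ 3) * (B * u ^ 3) := by
        linear_combination (u' ^ 3 * u ^ 3) * e0 -
          (w * u ^ 3 * ((v * u') ^ 2 + v * u' * v' * u + (v' * u) ^ 2) + w * A * u ^ 3 * u' ^ 2) * hvu
          - (v' ^ 3 * u ^ 3 + A * v' * u * u' ^ 2 + B * u' ^ 3) * e3 + (w' * u' ^ 3 * v' * u) * hA
      exact (mul_left_cancel₀ hw3 h8).symm
    exact ⟨hv, hw', hA, hB⟩
  have hinj : Set.InjOn (fun P : F × F × F => P.1)
      ((par F).filter (fun P => orb A B P = c) : Set (F × F × F)) := by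
    intro P hP P' hP' h
    have h1 := key P hP
    have h2 := key P' hP'
    simp only at h
    refine Prod.ext h (Prod.ext ?_ ?_)
    · rw [h1.1, h2.1, h]
    · rw [h1.2.1, h2.2.1, h]
  rw [← Finset.card_image_of_injOn hinj]
  rcases hAB with hA | hB
  · refine (Finset.card_le_card ?_).trans ((card_pow_le 2 (by norm_num) (Q.1 ^ 2)).trans (by norm_num))
    intro u hu'
    obtain ⟨P, hP, rfl⟩ := Finset.mem_image.1 hu'
    rw [Finset.mem_filter]
    exact ⟨Finset.mem_univ _, mul_left_cancel₀ hA (key P hP).2.2.1⟩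
  · refine (Finset.card_le_card ?_).trans (card_pow_le 3 (by norm_num) (Q.1 ^ 3))
    intro u hu'
    obtain ⟨P, hP, rfl⟩ := Finset.mem_image.1 hu'
    rw [Finset.mem_filter]
    exact ⟨Finset.mem_univ _, mul_left_cancel₀ hB (key P hP).2.2.2⟩

/-- the bound for the character sum of `X³ + A X + B` -/
theorem short_bound (h2 : (2 : F) ≠ 0) (h3 : (3 : F) ≠ 0) {A B : F} (hAB : A ≠ 0 ∨ B ≠ 0) :
    ((Fintype.card F : ℤ) - 1) * (Fintype.card F * ((Fintype.card F : ℤ) - 1)) *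
      (∑ x : F, quadraticChar F (x ^ 3 + A * x + B)) ^ 4 ≤ 9 * (Fintype.card F : ℤ) ^ 6 := by
  have hF : ringChar F ≠ 2 := by
    intro h
    apply h2
    have := ringChar.Nat.cast_ringChar (R := F)
    rw [h] at this
    exact_mod_cast this
  set T : ℤ := ∑ x : F, quadraticChar F (x ^ 3 + A * x + B) with hT
  have h4 : ∀ P ∈ par F, SS (orb A B P) ^ 4 = T ^ 4 := by
    intro P hP
    rw [mem_par] at hP
    rw [SS_orb A B hP.1 hP.2, mul_pow]
    have : (quadraticChar F P.2.2) ^ 4 = 1 := by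
      rcases quadraticChar_dichotomy hP.2 with h | h <;> rw [h] <;> norm_num
    rw [this, one_mul]
  have h5 : ((par F).card : ℤ) * T ^ 4 = ∑ P ∈ par F, SS (orb A B P) ^ 4 := by
    rw [Finset.sum_congr rfl h4, Finset.sum_const, nsmul_eq_mul]
  have h6 : ∑ P ∈ par F, SS (orb A B P) ^ 4 ≤ 3 * ∑ c : Fin 4 → F, (SS c) ^ 4 := by
    rw [← Finset.sum_fiberwise_of_maps_to (s := par F) (t := (univ : Finset (Fin 4 → F)))
      (g := orb A B) (fun _ _ => Finset.mem_univ _), Finset.mul_sum]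
    refine Finset.sum_le_sum fun c _ => ?_
    calc ∑ P ∈ (par F).filter (fun P => orb A B P = c), SS (orb A B P) ^ 4
        = ∑ P ∈ (par F).filter (fun P => orb A B P = c), SS c ^ 4 := by
          refine Finset.sum_congr rfl fun P hP => ?_
          rw [(Finset.mem_filter.1 hP).2]
      _ = (((par F).filter (fun P => orb A B P = c)).card : ℤ) * SS c ^ 4 := by
          rw [Finset.sum_const, nsmul_eq_mul]
      _ ≤ 3 * SS c ^ 4 := by
          refine mul_le_mul_of_nonneg_right ?_ (by positivity)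
          exact_mod_cast fiber_card h2 h3 hAB c
  have h7 := fourth_moment (F := F) hF
  have hq : 1 ≤ Fintype.card F := Fintype.card_pos
  have h8 : ((par F).card : ℤ) = ((Fintype.card F : ℤ) - 1) * (Fintype.card F * ((Fintype.card F : ℤ) - 1)) := by
    rw [card_par]
    push_cast [Nat.cast_sub hq]
    ring
  rw [← h8, h5]
  linarith


/-- number of `y` above `x` -/
lemma card_above (h2 : (2 : F) ≠ 0) (s t : F) :
    (((univ : Finset F).filter (fun y => y ^ 2 + s * y = t)).card : ℤ) =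
      quadraticChar F (s ^ 2 + 4 * t) + 1 := by
  have hF : ringChar F ≠ 2 := by
    intro h
    apply h2
    have := ringChar.Nat.cast_ringChar (R := F)
    rw [h] at this
    exact_mod_cast this
  rw [← quadraticChar_card_sqrts hF (s ^ 2 + 4 * t)]
  congr 1
  refine Finset.card_bij (fun y _ => 2 * y + s) ?_ ?_ ?_
  · intro y hy
    rw [Finset.mem_filter] at hy
    simp only [Set.mem_toFinset, Set.mem_setOf_eq]
    linear_combination 4 * hy.2
  · intro y _ y' _ h
    have h3 : 2 * y = 2 * y' := add_right_cancel h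
    exact mul_left_cancel₀ h2 h3
  · intro z hz
    simp only [Set.mem_toFinset, Set.mem_setOf_eq] at hz
    refine ⟨(z - s) / 2, ?_, ?_⟩
    · rw [Finset.mem_filter]
      refine ⟨Finset.mem_univ _, ?_⟩
      have h4 : (4 : F) ≠ 0 := by
        have : (4 : F) = 2 * 2 := by norm_num
        rw [this]
        exact mul_ne_zero h2 h2
      apply mul_left_cancel₀ h4
      field_simp
      linear_combination hz
    · field_simp
      ring

/-- **Mordell's bound** over a field with `q ≥ 5` elements, `6` invertible. -/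
theorem main (h2 : (2 : F) ≠ 0) (h3 : (3 : F) ≠ 0) (h5 : 5 ≤ Fintype.card F)
    (W : WeierstrassCurve F) (hΔ : W.Δ ≠ 0) :
    ((Fintype.card F : ℤ) - ((univ : Finset (F × F)).filter (fun P =>
      P.2 ^ 2 + W.a₁ * P.1 * P.2 + W.a₃ * P.2 =
        P.1 ^ 3 + W.a₂ * P.1 ^ 2 + W.a₄ * P.1 + W.a₆)).card) ^ 4 ≤
      16 * (Fintype.card F : ℤ) ^ 3 := by
  have h4 : (4 : F) ≠ 0 := by
    have : (4 : F) = 2 * 2 := by norm_num
    rw [this]
    exact mul_ne_zero h2 h2
  have h12 : (12 : F) ≠ 0 := by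
    have : (12 : F) = 4 * 3 := by norm_num
    rw [this]
    exact mul_ne_zero h4 h3
  set t : F := W.b₂ / 12 with ht
  set A : F := W.b₄ / 2 - 3 * t ^ 2 with hA
  set B : F := W.b₆ / 4 - t ^ 3 - A * t with hB
  have ht' : W.b₂ = 12 * t := by rw [ht]; field_simp
  have hA' : W.b₄ = 2 * (A + 3 * t ^ 2) := by rw [hA]; field_simp; ring
  have hB' : W.b₆ = 4 * (B + t ^ 3 + A * t) := by rw [hB]; field_simp; ring
  -- counting
  have hcount : ((univ : Finset (F × F)).filter (fun P =>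
      P.2 ^ 2 + W.a₁ * P.1 * P.2 + W.a₃ * P.2 =
        P.1 ^ 3 + W.a₂ * P.1 ^ 2 + W.a₄ * P.1 + W.a₆)).card =
      ∑ x : F, ((univ : Finset F).filter (fun y => y ^ 2 + (W.a₁ * x + W.a₃) * y =
        x ^ 3 + W.a₂ * x ^ 2 + W.a₄ * x + W.a₆)).card := by
    rw [Finset.card_eq_sum_card_fiberwise (f := Prod.fst) (t := (univ : Finset F))
      (fun _ _ => Finset.mem_coe.2 (Finset.mem_univ _))]
    refine Finset.sum_congr rfl fun x _ => ?_
    refine Finset.card_bij (fun P _ => P.2) ?_ ?_ ?_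
    · intro P hP
      rw [Finset.mem_filter, Finset.mem_filter] at hP
      rw [Finset.mem_filter]
      obtain ⟨⟨-, h⟩, rfl⟩ := hP
      exact ⟨Finset.mem_univ _, by linear_combination h⟩
    · intro P hP P' hP' h
      rw [Finset.mem_filter] at hP hP'
      exact Prod.ext (hP.2.trans hP'.2.symm) h
    · intro y hy
      rw [Finset.mem_filter] at hy
      refine ⟨(x, y), ?_, rfl⟩
      rw [Finset.mem_filter, Finset.mem_filter]
      exact ⟨⟨Finset.mem_univ _, by linear_combination hy.2⟩, rfl⟩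
  have hchar : ∀ x : F, quadraticChar F ((W.a₁ * x + W.a₃) ^ 2 +
      4 * (x ^ 3 + W.a₂ * x ^ 2 + W.a₄ * x + W.a₆)) =
      quadraticChar F ((x + t) ^ 3 + A * (x + t) + B) := by
    intro x
    have h6 : (W.a₁ * x + W.a₃) ^ 2 + 4 * (x ^ 3 + W.a₂ * x ^ 2 + W.a₄ * x + W.a₆) =
        2 ^ 2 * ((x + t) ^ 3 + A * (x + t) + B) := by
      have e2 : W.a₁ ^ 2 + 4 * W.a₂ = 12 * t := by
        rw [← ht', WeierstrassCurve.b₂]
      have e4 : 2 * W.a₄ + W.a₁ * W.a₃ = 2 * (A + 3 * t ^ 2) := by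
        rw [← hA', WeierstrassCurve.b₄]
      have e6 : W.a₃ ^ 2 + 4 * W.a₆ = 4 * (B + t ^ 3 + A * t) := by
        rw [← hB', WeierstrassCurve.b₆]
      linear_combination x ^ 2 * e2 + 2 * x * e4 + e6
    rw [h6, map_mul, quadraticChar_sq_one' h2, one_mul]
  have hsum : ((Fintype.card F : ℤ) - ((univ : Finset (F × F)).filter (fun P =>
      P.2 ^ 2 + W.a₁ * P.1 * P.2 + W.a₃ * P.2 =
        P.1 ^ 3 + W.a₂ * P.1 ^ 2 + W.a₄ * P.1 + W.a₆)).card) =
      -∑ x : F, quadraticChar F (x ^ 3 + A * x + B) := by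
    rw [hcount]
    push_cast
    simp_rw [card_above h2, hchar]
    rw [Finset.sum_add_distrib, Finset.sum_const, Finset.card_univ]
    have := Equiv.sum_comp (Equiv.addRight t) (fun x => quadraticChar F (x ^ 3 + A * x + B))
    simp only [Equiv.coe_addRight] at this
    rw [this]
    simp
  have hAB : A ≠ 0 ∨ B ≠ 0 := by
    by_contra hcon
    push Not at hcon
    apply hΔ
    have h8 : 4 * W.b₈ = W.b₂ * W.b₆ - W.b₄ ^ 2 := W.b_relation
    have h9 : 4 * W.Δ = 0 := by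
      rw [WeierstrassCurve.Δ]
      have e1 : W.b₂ = 12 * t := ht'
      have e2 : W.b₄ = 6 * t ^ 2 := by rw [hA', hcon.1]; ring
      have e3 : W.b₆ = 4 * t ^ 3 := by rw [hB', hcon.1, hcon.2]; ring
      have : 4 * (-W.b₂ ^ 2 * W.b₈ - 8 * W.b₄ ^ 3 - 27 * W.b₆ ^ 2 + 9 * W.b₂ * W.b₄ * W.b₆) =
          -W.b₂ ^ 2 * (4 * W.b₈) + 4 * (- 8 * W.b₄ ^ 3 - 27 * W.b₆ ^ 2 +
            9 * W.b₂ * W.b₄ * W.b₆) := by ring
      rw [this, h8, e1, e2, e3]
      ring
    exact (mul_eq_zero.1 h9).resolve_left h4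
  have hmain := short_bound h2 h3 hAB
  rw [hsum]
  set T : ℤ := ∑ x : F, quadraticChar F (x ^ 3 + A * x + B) with hT
  set q : ℤ := (Fintype.card F : ℤ) with hq
  have hq5 : 5 ≤ q := by rw [hq]; exact_mod_cast h5
  have e1 : (-T) ^ 4 = T ^ 4 := by ring
  rw [e1]
  -- (q-1)^2 q T^4 ≤ 9 q^6
  have e2 : q * ((q - 1) ^ 2 * T ^ 4) ≤ q * (9 * q ^ 5) := by
    linarith [hmain, show (q - 1) * (q * (q - 1)) * T ^ 4 = q * ((q - 1) ^ 2 * T ^ 4) by ring,
      show 9 * q ^ 6 = q * (9 * q ^ 5) by ring]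
  have e3 : (q - 1) ^ 2 * T ^ 4 ≤ 9 * q ^ 5 := le_of_mul_le_mul_left e2 (by linarith)
  have e4 : 9 * q ^ 5 ≤ (q - 1) ^ 2 * (16 * q ^ 3) := by
    have : 0 ≤ q ^ 3 * (16 * (q - 1) ^ 2 - 9 * q ^ 2) := by
      apply mul_nonneg (by positivity)
      nlinarith
    nlinarith [this]
  have e5 : (q - 1) ^ 2 * T ^ 4 ≤ (q - 1) ^ 2 * (16 * q ^ 3) := e3.trans e4
  exact le_of_mul_le_mul_left e5 (by have : 0 < q - 1 := by linarith
                                     positivity)

end Pool.Agent.MU74.Mordell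

namespace Pool.Agent.MU74

/-- **Mordell's bound** modulo a prime `l ≥ 5`. -/
theorem mordell {l : ℕ} [Fact l.Prime] (hl : 5 ≤ l) (W : WeierstrassCurve (ZMod l))
    (hΔ : W.Δ ≠ 0) :
    ((l : ℤ) - ((univ : Finset (ZMod l × ZMod l)).filter (fun P =>
      P.2 ^ 2 + W.a₁ * P.1 * P.2 + W.a₃ * P.2 =
        P.1 ^ 3 + W.a₂ * P.1 ^ 2 + W.a₄ * P.1 + W.a₆)).card) ^ 4 ≤ 16 * (l : ℤ) ^ 3 := by
  have h2 : (2 : ZMod l) ≠ 0 := by
    intro h
    have : ((2 : ℕ) : ZMod l) = 0 := by exact_mod_cast h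
    rw [ZMod.natCast_eq_zero_iff] at this
    have := Nat.le_of_dvd (by norm_num) this
    omega
  have h3 : (3 : ZMod l) ≠ 0 := by
    intro h
    have : ((3 : ℕ) : ZMod l) = 0 := by exact_mod_cast h
    rw [ZMod.natCast_eq_zero_iff] at this
    have := Nat.le_of_dvd (by norm_num) this
    omega
  have := Mordell.main h2 h3 (by rw [ZMod.card]; exact hl) W hΔ
  rwa [ZMod.card] at this

end Pool.Agent.MU74
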