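import Mathlib
import Pool.Agent.MU74.Mordell

/-!
# The number of points of an elliptic curve modulo a prime
-/

set_option autoImplicit false

open Finset

namespace Pool.Agent.MU74

/-- Trivial bound. -/
theorem card_le_two_mul {l : ℕ} [Fact l.Prime] (W : WeierstrassCurve (ZMod l)) :
    Nat.card {P : ZMod l × ZMod l // W.toAffine.Equation P.1 P.2} ≤ 2 * l := by
  classical
  rw [Nat.card_eq_fintype_card, Fintype.card_subtype]
  have h1 : #((univ : Finset (ZMod l × ZMod l)).filter (fun P => W.toAffine.Equation P.1 P.2)) ≤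
      2 * #(univ : Finset (ZMod l)) := by
    apply Finset.card_le_mul_card_image_of_maps_to (f := Prod.fst) (fun _ _ => mem_univ _) 2
    intro x _
    set P : Polynomial (ZMod l) := Polynomial.X ^ 2 + Polynomial.C (W.a₁ * x + W.a₃) * Polynomial.X -
      Polynomial.C (x ^ 3 + W.a₂ * x ^ 2 + W.a₄ * x + W.a₆) with hP
    have hdeg : P.natDegree ≤ 2 := by
      rw [hP]
      compute_degree
    have hP0 : P ≠ 0 := by
      intro h
      have : P.coeff 2 = 0 := by rw [h]; simp
      rw [hP] at this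
      generalize W.a₁ * x + W.a₃ = c at this
      generalize x ^ 3 + W.a₂ * x ^ 2 + W.a₄ * x + W.a₆ = d at this
      rw [Polynomial.coeff_sub, Polynomial.coeff_add, Polynomial.coeff_C_mul, Polynomial.coeff_X_pow,
        Polynomial.coeff_X, Polynomial.coeff_C] at this
      simp at this
    calc _ ≤ #((P.roots.toFinset).image (fun y => (x, y))) := by
          apply Finset.card_le_card
          intro Q hQ
          rw [mem_filter, mem_filter] at hQ
          obtain ⟨⟨_, h1⟩, h2⟩ := hQ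
          rw [mem_image]
          refine ⟨Q.2, ?_, ?_⟩
          · rw [Multiset.mem_toFinset, Polynomial.mem_roots hP0, Polynomial.IsRoot.def, hP]
            rw [WeierstrassCurve.Affine.equation_iff] at h1
            simp only [Polynomial.eval_sub, Polynomial.eval_add, Polynomial.eval_pow,
              Polynomial.eval_X, Polynomial.eval_mul, Polynomial.eval_C]
            rw [← h2]
            linear_combination h1
          · rw [← h2]
      _ ≤ #(P.roots.toFinset) := card_image_le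
      _ ≤ P.roots.card := Multiset.toFinset_card_le _
      _ ≤ P.natDegree := P.card_roots'
      _ ≤ 2 := hdeg
  rw [card_univ, ZMod.card] at h1
  exact h1

/-- Trivial bound for the trace. -/
theorem abs_sub_card_le {l : ℕ} [Fact l.Prime] (W : WeierstrassCurve (ZMod l)) :
    |(l : ℝ) - (Nat.card {P : ZMod l × ZMod l // W.toAffine.Equation P.1 P.2} : ℝ)| ≤ l := by
  have h1 : (Nat.card {P : ZMod l × ZMod l // W.toAffine.Equation P.1 P.2} : ℝ) ≤ 2 * l := by
    exact_mod_cast card_le_two_mul W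
  have h2 : (0 : ℝ) ≤ (Nat.card {P : ZMod l × ZMod l // W.toAffine.Equation P.1 P.2} : ℝ) := by
    positivity
  rw [abs_le]
  constructor <;> linarith

/-- `x^4 ≤ 16 l^3` in terms of real powers. -/
theorem le_rpow_of {x : ℝ} {l : ℕ} (h : x ^ 4 ≤ 16 * (l : ℝ) ^ 3) :
    |x| ≤ 2 * (l : ℝ) ^ (3 / 4 : ℝ) := by
  have h1 : (2 * (l : ℝ) ^ (3 / 4 : ℝ)) ^ 4 = 16 * (l : ℝ) ^ 3 := by
    rw [mul_pow, ← Real.rpow_natCast ((l : ℝ) ^ (3 / 4 : ℝ)), ← Real.rpow_mul (by positivity)]
    norm_num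
  have h2 : |x| ^ 4 ≤ (2 * (l : ℝ) ^ (3 / 4 : ℝ)) ^ 4 := by
    rw [h1, ← abs_pow, abs_of_nonneg (by positivity)]
    exact h
  exact le_of_pow_le_pow_left₀ (by norm_num) (by positivity) h2

/-- Mordell's bound for an elliptic curve over the integers, at the primes `≥ 5`. -/
theorem mordell_real {l : ℕ} [Fact l.Prime] (hl : 5 ≤ l) (W : WeierstrassCurve (ZMod l))
    (hΔ : W.Δ ≠ 0) :
    |(l : ℝ) - (Nat.card {P : ZMod l × ZMod l // W.toAffine.Equation P.1 P.2} : ℝ)| ≤
      2 * (l : ℝ) ^ (3 / 4 : ℝ) := by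
  classical
  have h := mordell hl W hΔ
  have e : Nat.card {P : ZMod l × ZMod l // W.toAffine.Equation P.1 P.2} =
      #((univ : Finset (ZMod l × ZMod l)).filter (fun P =>
      P.2 ^ 2 + W.a₁ * P.1 * P.2 + W.a₃ * P.2 =
        P.1 ^ 3 + W.a₂ * P.1 ^ 2 + W.a₄ * P.1 + W.a₆)) := by
    rw [Nat.card_eq_fintype_card, Fintype.card_subtype]
    congr 1
    apply Finset.filter_congr
    intro P _
    rw [WeierstrassCurve.Affine.equation_iff]
  rw [e]
  apply le_rpow_of
  exact_mod_cast h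

theorem pointcount (E : WeierstrassCurve ℤ) {p : ℕ} [Fact p.Prime] (hΔ : ¬ (p : ℤ) ∣ E.Δ) :
    |(p : ℝ) - (Nat.card {P : ZMod p × ZMod p //
        (E.map (Int.castRingHom (ZMod p))).toAffine.Equation P.1 P.2} : ℝ)| ≤ p ∧
    |(p : ℝ) - (Nat.card {P : ZMod p × ZMod p //
        (E.map (Int.castRingHom (ZMod p))).toAffine.Equation P.1 P.2} : ℝ)| ≤
      2 * (p : ℝ) ^ (3 / 4 : ℝ) := by
  refine ⟨abs_sub_card_le _, ?_⟩
  have hp := (Fact.out : p.Prime)
  by_cases h5 : 5 ≤ p
  · apply mordell_real h5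
    rw [WeierstrassCurve.map_Δ]
    intro h
    apply hΔ
    rw [← ZMod.intCast_zmod_eq_zero_iff_dvd]
    simpa using h
  · refine (abs_sub_card_le _).trans ?_
    have hp0 : (0 : ℝ) < p := by exact_mod_cast hp.pos
    have hp16 : (p : ℝ) ≤ 16 := by
      have : p ≤ 16 := by omega
      exact_mod_cast this
    have h1 : (p : ℝ) ^ (1 / 4 : ℝ) ≤ 2 := by
      calc (p : ℝ) ^ (1 / 4 : ℝ) ≤ (16 : ℝ) ^ (1 / 4 : ℝ) :=
            Real.rpow_le_rpow hp0.le hp16 (by norm_num)
        _ = 2 := by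
            rw [show (16 : ℝ) = 2 ^ (4 : ℝ) by norm_num, ← Real.rpow_mul (by norm_num)]
            norm_num
    calc (p : ℝ) = (p : ℝ) ^ (1 / 4 : ℝ) * (p : ℝ) ^ (3 / 4 : ℝ) := by
          rw [← Real.rpow_add hp0]
          norm_num
      _ ≤ 2 * (p : ℝ) ^ (3 / 4 : ℝ) := by gcongr

end Pool.Agent.MU74
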