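import Pool.Agent.MZ.PerP

/-!
# Definitions: Ramanujan sums for prime powers, roots of unity of small height, rank
-/

set_option autoImplicit false

namespace Pool.Agent.MU74

/-- The value of `∑ e(j b / p^n)` over the units `b` modulo `p^n`. -/
noncomputable def ram (p n : ℕ) (j : ZMod (p ^ n)) : ℝ :=
  if j = 0 then (p : ℝ) ^ n - (p : ℝ) ^ (n - 1)
  else if (p : ZMod (p ^ n)) * j = 0 then -(p : ℝ) ^ (n - 1) else 0

/-- `x` is a positive rational number prime to `p` and `x^e = 1` modulo `p^n`. -/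
def InG (p n e : ℕ) (x : ℚ) : Prop :=
  0 < x ∧ ¬ (p : ℤ) ∣ x.num ∧ ¬ p ∣ x.den ∧
    (x.num : ZMod (p ^ n)) ^ e = (x.den : ZMod (p ^ n)) ^ e

/-- The height of a rational number. -/
def ht (x : ℚ) : ℕ := max x.num.natAbs x.den

/-- Any `r + 1` elements of `Γ` are multiplicatively dependent. -/
def RankLE (r : ℕ) (Γ : Set ℚ) : Prop :=
  ∀ x : Fin (r + 1) → ℚ, (∀ i, x i ∈ Γ) →
    ∃ k : Fin (r + 1) → ℤ, k ≠ 0 ∧ ∏ i, x i ^ k i = 1

end Pool.Agent.MU74
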