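import Pool.Agent.MU74.Defs
import Pool.Agent.MZ.PerD

/-!
# The dual form of a cusp form of weight two
-/

set_option autoImplicit false

open UpperHalfPlane hiding I
open Filter Topology Complex Function CongruenceSubgroup
open Matrix.SpecialLinearGroup (mapGL)
open scoped MatrixGroups Real ModularForm OnePoint Manifold
open Pool.Agent.MZ Pool.Agent.MZ.Per

namespace Pool.Agent.MU74

open ConjAct Pointwise in
/-- the form `f|S` -/
theorem dual_form {N : ℕ} [NeZero N] (f : CuspForm (Gamma0 N) 2) :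
    ∃ c : ℕ → ℂ, Continuous (⇑f ∣[(2 : ℤ)] ModularGroup.S) ∧ c 0 = 0 ∧
      (∀ z : ℍ, HasSum (fun n : ℕ => c n * cexp (2 * π * Complex.I * n * z / (N : ℝ)))
        ((⇑f ∣[(2 : ℤ)] ModularGroup.S) z)) ∧
      (∃ C : ℝ, ∀ z : ℍ, ‖(⇑f ∣[(2 : ℤ)] ModularGroup.S) z‖ * z.im ≤ C) := by
  have harith : ((toConjAct (ModularGroup.S : GL (Fin 2) ℝ)⁻¹) •
      ((Gamma0 N : Subgroup SL(2, ℤ)) : Subgroup (GL (Fin 2) ℝ))).IsArithmetic := by
    simpa [(show Rat.castHom ℝ = algebraMap ℚ ℝ by rfl), map_inv, Matrix.SpecialLinearGroup.map_mapGL]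
      using! Subgroup.IsArithmetic.conj ((Gamma0 N : Subgroup SL(2, ℤ)) : Subgroup (GL (Fin 2) ℝ))
        (Matrix.SpecialLinearGroup.mapGL ℚ ModularGroup.S)⁻¹
  set Γ' := (toConjAct (ModularGroup.S : GL (Fin 2) ℝ)⁻¹) •
      ((Gamma0 N : Subgroup SL(2, ℤ)) : Subgroup (GL (Fin 2) ℝ)) with hΓ'
  let F : CuspForm Γ' 2 := CuspForm.translate f (ModularGroup.S : GL (Fin 2) ℝ)
  have hF : (⇑F : ℍ → ℂ) = ⇑f ∣[(2 : ℤ)] ModularGroup.S := rfl
  have hN0 : (0 : ℝ) < N := by exact_mod_cast Nat.pos_of_ne_zero (NeZero.ne N)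
  have hN : (N : ℝ) ∈ Γ'.strictPeriods := by
    rw [Subgroup.mem_strictPeriods_iff, hΓ', Subgroup.mem_pointwise_smul_iff_inv_smul_mem]
    have hdet : (!![1, 0; -(N : ℤ), 1] : Matrix (Fin 2) (Fin 2) ℤ).det = 1 := by
      simp [Matrix.det_fin_two]
    set γ : SL(2, ℤ) := ⟨!![1, 0; -(N : ℤ), 1], hdet⟩ with hγ
    have hmem : γ ∈ Gamma0 N := by
      rw [Gamma0_mem, hγ]
      simp
    refine ⟨γ, hmem, ?_⟩
    rw [← map_inv, inv_inv, ConjAct.toConjAct_smul, eq_mul_inv_iff_mul_eq]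
    apply Units.ext
    ext i j
    fin_cases i <;> fin_cases j <;>
      simp [Matrix.mul_apply, Fin.sum_univ_two, hγ, ModularGroup.S,
        Matrix.GeneralLinearGroup.upperRightHom]
  refine ⟨fun n => (qExpansion (N : ℝ) F).coeff n, ?_, ?_, ?_, ?_⟩
  · rw [← hF]
    exact (CuspFormClass.holo F).continuous
  · exact CuspFormClass.qExpansion_coeff_zero F hN0 hN
  · intro z
    have h1 := ModularForm.hasSum_qExpansion F hN0 hN z
    rw [← hF]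
    convert! h1 using 2 with n
    rw [Function.Periodic.qParam, ← Complex.exp_nat_mul]
    congr 2
    push_cast
    ring
  · obtain ⟨C, hC⟩ := CuspFormClass.exists_bound F
    refine ⟨C, fun z => ?_⟩
    have h1 := hC z
    rw [hF] at h1
    have h2 : z.im ^ (((2 : ℤ) : ℝ) / 2) = z.im := by
      norm_num
    rw [h2, le_div_iff₀ z.im_pos] at h1
    exact h1

theorem exists_dual {N : ℕ} [NeZero N] (f : CuspForm (Gamma0 N) 2) :
    ∃ (g : ℍ → ℂ) (c : ℕ → ℂ), Continuous g ∧ c 0 = 0 ∧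
      (∀ z : ℍ, HasSum (fun n : ℕ => c n * cexp (2 * π * Complex.I * n * z / (N : ℝ))) (g z)) ∧
      (∃ C : ℝ, ∀ z : ℍ, ‖g z‖ * z.im ≤ C) ∧
      ∀ (q : ℕ) (b v : ℤ), 0 < q → (N : ℤ) ∣ v → (q : ℤ) ∣ b * v - 1 → ∀ t : ℝ, 0 < t →
        f (vert ((b : ℝ) / q) t) =
          -(1 / ((q : ℂ) ^ 2 * (t : ℂ) ^ 2)) * g (vert (-(v : ℝ) / q) (1 / ((q : ℝ) ^ 2 * t))) := by
  obtain ⟨c, h1, h2, h3, h4⟩ := dual_form f
  refine ⟨⇑f ∣[(2 : ℤ)] ModularGroup.S, c, h1, h2, h3, h4, ?_⟩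
  intro q b v hq hNv hqb t ht
  obtain ⟨w, hw⟩ := hqb
  have hdet : (!![b, w; (q : ℤ), v] : Matrix (Fin 2) (Fin 2) ℤ).det = 1 := by
    rw [Matrix.det_fin_two_of]
    linear_combination hw
  set γ : SL(2, ℤ) := ⟨!![b, w; (q : ℤ), v], hdet⟩ with hγ
  have hdet' : (!![-w, b; -v, (q : ℤ)] : Matrix (Fin 2) (Fin 2) ℤ).det = 1 := by
    rw [Matrix.det_fin_two_of]
    linear_combination hw
  set γ₀ : SL(2, ℤ) := ⟨!![-w, b; -v, (q : ℤ)], hdet'⟩ with hγ₀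
  have hmul : γ = γ₀ * ModularGroup.S := by
    apply Subtype.ext
    ext i j
    fin_cases i <;> fin_cases j <;> simp [hγ, hγ₀, ModularGroup.S]
  have hmem : γ₀ ∈ Gamma0 N := by
    rw [Gamma0_mem, hγ₀]
    simp only [Matrix.SpecialLinearGroup.coe_mk, Matrix.of_apply, Matrix.cons_val', Matrix.cons_val_zero,
      Matrix.cons_val_one, Matrix.cons_val_fin_one, Int.cast_neg, neg_eq_zero]
    exact (ZMod.intCast_zmod_eq_zero_iff_dvd _ _).2 hNv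
  have hf : ⇑f ∣[(2 : ℤ)] γ₀ = ⇑f :=
    SlashInvariantForm.slash_action_eqn f (mapGL ℝ γ₀) (Subgroup.mem_map_of_mem _ hmem)
  have hslash : ⇑f ∣[(2 : ℤ)] γ = ⇑f ∣[(2 : ℤ)] ModularGroup.S := by
    rw [hmul, SlashAction.slash_mul, hf]
  have h10 : γ 1 0 = (q : ℤ) := by simp [hγ]
  have h11 : γ 1 1 = v := by simp [hγ]
  have h00 : γ 0 0 = b := by simp [hγ]
  have hq0 : (q : ℝ) ≠ 0 := by exact_mod_cast hq.ne'
  have hq0' : (q : ℂ) ≠ 0 := by exact_mod_cast hq.ne'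
  have ht0 : (t : ℂ) ≠ 0 := by exact_mod_cast ht.ne'
  have hv := vert_sl (σ := γ) (by rw [h10]; exact_mod_cast hq.ne') ht
  rw [h10, h11, h00, Int.cast_natCast] at hv
  have hpos : 0 < 1 / ((q : ℝ) ^ 2 * t) := by positivity
  have h5 := congrFun hslash (vert (-(v : ℝ) / q) (1 / ((q : ℝ) ^ 2 * t)))
  have h6 : (⇑f ∣[(2 : ℤ)] γ) (vert (-(v : ℝ) / q) (1 / ((q : ℝ) ^ 2 * t))) =
      f (γ • vert (-(v : ℝ) / q) (1 / ((q : ℝ) ^ 2 * t))) *
        ((γ 1 0 : ℂ) * (vert (-(v : ℝ) / q) (1 / ((q : ℝ) ^ 2 * t)) : ℂ) + γ 1 1) ^ (-2 : ℤ) := by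
    rw [ModularForm.SL_slash_apply]
    rfl
  rw [hv, h10, h11, coe_vert hpos] at h6
  rw [← h5, h6]
  have h7 : (((q : ℤ) : ℂ) * (((-(v : ℝ) / q : ℝ) : ℂ) + ((1 / ((q : ℝ) ^ 2 * t) : ℝ) : ℂ) * Complex.I)
      + (v : ℂ)) = Complex.I / ((q : ℂ) * t) := by
    push_cast
    field_simp
    ring
  rw [h7]
  have h8 : (Complex.I / ((q : ℂ) * t)) ^ (-2 : ℤ) = -((q : ℂ) ^ 2 * (t : ℂ) ^ 2) := by
    rw [zpow_neg, show ((2 : ℤ)) = ((2 : ℕ) : ℤ) from rfl, zpow_natCast, div_pow, Complex.I_sq]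
    field_simp
  rw [h8]
  field_simp

end Pool.Agent.MU74
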