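import Pool.Agent.MU74.Dual
import Pool.Agent.MU74.Parseval
import Pool.Agent.MU1.An1

/-!
# The growth of the modular symbol
-/

set_option autoImplicit false

open UpperHalfPlane hiding I
open Filter Topology Complex Function CongruenceSubgroup
open Matrix.SpecialLinearGroup (mapGL)
open scoped MatrixGroups Real ModularForm OnePoint Manifold
open Pool.Agent.MZ Pool.Agent.MZ.Per

namespace Pool.Agent.MU74

/-- decay near the cusp -/
theorem decay {g : ℍ → ℂ} {c : ℕ → ℂ} {w C : ℝ} (hw : 0 < w) (hc0 : c 0 = 0)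
    (hg : ∀ z : ℍ, HasSum (fun n : ℕ => c n * cexp (2 * π * Complex.I * n * z / w)) (g z))
    (hC : ∀ z : ℍ, ‖g z‖ * z.im ≤ C) :
    ∃ C₂ : ℝ, 0 ≤ C₂ ∧ ∀ z : ℍ, 1 ≤ z.im → ‖g z‖ * z.im ^ 2 ≤ C₂ := by
  obtain ⟨C', hC'0, hC'⟩ := l1_of_bound hw hc0 hg hC
  obtain ⟨hs, -⟩ := hC' (1 / 2) (by norm_num)
  set A : ℝ := ∑' n : ℕ, ‖c n‖ * Real.exp (-(2 * π * n * (1 / 2) / w)) with hA
  have hA0 : 0 ≤ A := tsum_nonneg fun n => by positivity
  have hpi := Real.pi_pos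
  refine ⟨A * (2 * (w / π) ^ 2), by positivity, fun z hz => ?_⟩
  set y : ℝ := z.im with hy
  have hy0 : 0 < y := by linarith
  have hnorm : ∀ n : ℕ, ‖c n * cexp (2 * π * Complex.I * n * z / w)‖ =
      ‖c n‖ * Real.exp (-(2 * π * n * y / w)) := by
    intro n
    rw [norm_mul, Complex.norm_exp]
    congr 2
    have h1 : (2 * π * Complex.I * n * z / w : ℂ) = (((2 * π * n / w : ℝ)) : ℂ) * (Complex.I * z) := by
      push_cast
      ring
    rw [h1, Complex.re_ofReal_mul, Complex.I_mul_re, coe_im]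
    ring
  have hle : ∀ n : ℕ, ‖c n * cexp (2 * π * Complex.I * n * z / w)‖ ≤
      ‖c n‖ * Real.exp (-(2 * π * n * (1 / 2) / w)) * Real.exp (-(π * y / w)) := by
    intro n
    rw [hnorm]
    rcases Nat.eq_zero_or_pos n with hn | hn
    · subst hn
      simp [hc0]
    · rw [mul_assoc ‖c n‖]
      refine mul_le_mul_of_nonneg_left ?_ (norm_nonneg (c n))
      rw [← Real.exp_add, Real.exp_le_exp]
      have hn1 : (1 : ℝ) ≤ n := by exact_mod_cast hn
      have h2 : -(2 * π * n * (1 / 2) / w) + -(π * y / w) = -((n + y) * (π / w)) := by ring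
      have h3 : -(2 * π * n * y / w) = -((2 * n * y) * (π / w)) := by ring
      rw [h2, h3, neg_le_neg_iff]
      refine mul_le_mul_of_nonneg_right ?_ (by positivity)
      nlinarith [mul_nonneg (sub_nonneg.2 hn1) (sub_nonneg.2 hz), mul_nonneg hy0.le (sub_nonneg.2 hn1)]
  have h1 : ‖g z‖ ≤ A * Real.exp (-(π * y / w)) := by
    rw [← (hg z).tsum_eq, hA, ← tsum_mul_right]
    exact tsum_of_norm_bounded (hs.mul_right _).hasSum hle
  set x : ℝ := π * y / w with hx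
  have hx0 : 0 < x := by positivity
  have h2 : x ^ 2 * Real.exp (-x) ≤ 2 := by
    have h3 := Real.quadratic_le_exp_of_nonneg hx0.le
    have h4 : Real.exp x * Real.exp (-x) = 1 := by rw [← Real.exp_add]; simp
    have h5 := Real.exp_pos (-x)
    have h6 : (1 + x + x ^ 2 / 2) * Real.exp (-x) ≤ 1 := by
      calc (1 + x + x ^ 2 / 2) * Real.exp (-x) ≤ Real.exp x * Real.exp (-x) :=
            mul_le_mul_of_nonneg_right h3 h5.le
        _ = 1 := h4
    nlinarith [mul_pos hx0 h5]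
  have h3 : y = x * (w / π) := by
    rw [hx]
    field_simp
  calc ‖g z‖ * y ^ 2 ≤ A * Real.exp (-x) * y ^ 2 := mul_le_mul_of_nonneg_right h1 (by positivity)
    _ = A * ((x ^ 2 * Real.exp (-x)) * (w / π) ^ 2) := by
        rw [h3]
        ring
    _ ≤ A * (2 * (w / π) ^ 2) := by
        refine mul_le_mul_of_nonneg_left ?_ hA0
        exact mul_le_mul_of_nonneg_right h2 (by positivity)

/-- the primitive on a vertical line -/
theorem hasDerivAt_vert {N : ℕ} [NeZero N] (f : CuspForm (Gamma0 N) 2) (x : ℝ) {s : ℝ}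
    (hs : 0 < s) : HasDerivAt (fun s : ℝ => G f (vert x s)) (-(2 * π) * f (vert x s)) s := by
  have h1 := (prim_G f).der (vert x s)
  rw [coe_vert hs] at h1
  have h2 : HasDerivAt (fun t : ℝ => (x : ℂ) + (t : ℂ) * Complex.I) Complex.I s := by
    have := ((hasDerivAt_id (s : ℂ)).comp_ofReal.mul_const Complex.I).const_add (x : ℂ)
    simpa using this
  have h3 := HasDerivAt.comp s (h₂ := G f ∘ ofComplex) (by simpa using h1) h2
  have h4 : (2 * π * Complex.I * f (vert x s)) * Complex.I = -(2 * π) * f (vert x s) := by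
    linear_combination (2 * π * f (vert x s)) * Complex.I_mul_I
  rw [h4] at h3
  exact h3

theorem bd_log {N : ℕ} [NeZero N] (f : CuspForm (Gamma0 N) 2) {a : ℕ → ℤ}
    (_ha : ∀ n, (qExpansion 1 f).coeff n = a n) :
    ∃ C : ℝ, 0 ≤ C ∧ ∀ x : ℚ, Nat.Coprime x.den N →
      ‖bd (G f) (x : OnePoint ℚ)‖ ≤ C * (1 + Real.log x.den) := by
  obtain ⟨g, c, -, hc0, hg, ⟨C₁, hC₁⟩, hdual⟩ := exists_dual f
  have hN0 : (0 : ℝ) < (N : ℝ) := by exact_mod_cast Nat.pos_of_ne_zero (NeZero.ne N)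
  obtain ⟨C₂, hC₂0, hC₂⟩ := decay hN0 hc0 hg hC₁
  obtain ⟨C, hC0, hC⟩ := MU1.G_bound f
  have hpi := Real.pi_pos
  refine ⟨2 * C + 2 * π * C₂, by positivity, fun x hx => ?_⟩
  set q : ℕ := x.den with hq
  have hqpos : 0 < q := x.den_pos
  have hq1 : (1 : ℝ) ≤ q := by exact_mod_cast hqpos
  have hq0 : (0 : ℝ) < q := by linarith
  have hlogq : 0 ≤ Real.log q := Real.log_nonneg hq1
  obtain ⟨v, hNv, hv⟩ : ∃ v : ℤ, (N : ℤ) ∣ v ∧ (q : ℤ) ∣ x.num * v - 1 := by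
    have h1 : IsCoprime ((N : ℤ) * x.num) (q : ℤ) := by
      refine IsCoprime.mul_left ?_ ?_
      · rw [Int.isCoprime_iff_gcd_eq_one]
        exact hx.symm
      · rw [Int.isCoprime_iff_gcd_eq_one]
        exact x.reduced
    obtain ⟨u, w, huw⟩ := h1
    exact ⟨N * u, ⟨u, rfl⟩, ⟨-w, by linear_combination huw⟩⟩
  have hxq : (x : ℝ) = (x.num : ℝ) / q := Rat.cast_def x
  -- the bound of the derivative
  have hder : ∀ s ∈ Set.Ioc (0 : ℝ) (1 / (q : ℝ) ^ 2),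
      ‖(-(2 * π) * f (vert (x : ℝ) s) : ℂ)‖ ≤ 2 * π * C₂ * (q : ℝ) ^ 2 := by
    intro s hs
    have hs0 : 0 < s := hs.1
    have h1 : 1 ≤ 1 / ((q : ℝ) ^ 2 * s) := by
      rw [le_div_iff₀ (by positivity), one_mul]
      have := hs.2
      rw [le_div_iff₀ (by positivity)] at this
      linarith
    have h2 := hC₂ (vert (-(v : ℝ) / q) (1 / ((q : ℝ) ^ 2 * s))) (by
      rw [im_vert (by positivity)]
      exact h1)
    rw [im_vert (by positivity)] at h2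
    rw [hxq, hdual q x.num v hqpos hNv hv s hs0]
    rw [norm_mul, norm_neg, norm_mul, norm_mul, norm_neg]
    have h3 : ‖((1 : ℂ) / ((q : ℂ) ^ 2 * (s : ℂ) ^ 2))‖ = 1 / ((q : ℝ) ^ 2 * s ^ 2) := by
      rw [norm_div, norm_one, norm_mul, norm_pow, norm_pow, Complex.norm_natCast, Complex.norm_real,
        Real.norm_of_nonneg hs0.le]
    rw [h3, Complex.norm_real, Real.norm_of_nonneg hpi.le, Complex.norm_ofNat]
    have h4 : ‖g (vert (-(v : ℝ) / q) (1 / ((q : ℝ) ^ 2 * s)))‖ ≤ C₂ * ((q : ℝ) ^ 2 * s) ^ 2 := by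
      rw [div_pow, one_pow, mul_one_div, div_le_iff₀ (by positivity)] at h2
      exact h2
    calc 2 * π * (1 / ((q : ℝ) ^ 2 * s ^ 2) *
          ‖g (vert (-(v : ℝ) / q) (1 / ((q : ℝ) ^ 2 * s)))‖)
        ≤ 2 * π * (1 / ((q : ℝ) ^ 2 * s ^ 2) * (C₂ * ((q : ℝ) ^ 2 * s) ^ 2)) := by gcongr
      _ = 2 * π * C₂ * (q : ℝ) ^ 2 := by
          field_simp
  have hbd : ∀ s ∈ Set.Ioc (0 : ℝ) (1 / (q : ℝ) ^ 2),
      ‖G f (vert (x : ℝ) s)‖ ≤ C * (1 + Real.log ((q : ℝ) ^ 2)) + 2 * π * C₂ := by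
    intro s hs
    have hmem : (1 / (q : ℝ) ^ 2) ∈ Set.Ioc (0 : ℝ) (1 / (q : ℝ) ^ 2) := ⟨by positivity, le_rfl⟩
    have h1 := (convex_Ioc (0 : ℝ) (1 / (q : ℝ) ^ 2)).norm_image_sub_le_of_norm_hasDerivWithin_le
      (f := fun s : ℝ => G f (vert (x : ℝ) s)) (f' := fun s : ℝ => -(2 * π) * f (vert (x : ℝ) s))
      (fun s hs => (hasDerivAt_vert f x hs.1).hasDerivWithinAt) hder hmem hs
    have h2 : ‖s - 1 / (q : ℝ) ^ 2‖ ≤ 1 / (q : ℝ) ^ 2 := by
      rw [Real.norm_eq_abs, abs_le]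
      constructor
      · have := hs.1
        linarith
      · have h3 := hs.2
        have h4 : 0 < 1 / (q : ℝ) ^ 2 := by positivity
        linarith
    have h3 : 2 * π * C₂ * (q : ℝ) ^ 2 * ‖s - 1 / (q : ℝ) ^ 2‖ ≤ 2 * π * C₂ := by
      calc 2 * π * C₂ * (q : ℝ) ^ 2 * ‖s - 1 / (q : ℝ) ^ 2‖ ≤
            2 * π * C₂ * (q : ℝ) ^ 2 * (1 / (q : ℝ) ^ 2) := by gcongr
        _ = 2 * π * C₂ := by field_simp
    have h4 := hC (x : ℝ) (1 / (q : ℝ) ^ 2) (by positivity) (by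
      rw [div_le_one (by positivity)]
      exact one_le_pow₀ hq1)
    rw [show (1 : ℝ) / (1 / (q : ℝ) ^ 2) = (q : ℝ) ^ 2 by field_simp] at h4
    have h5 : ‖G f (vert (x : ℝ) s)‖ ≤ ‖G f (vert (x : ℝ) (1 / (q : ℝ) ^ 2))‖ +
        ‖G f (vert (x : ℝ) s) - G f (vert (x : ℝ) (1 / (q : ℝ) ^ 2))‖ := by
      have := norm_add_le (G f (vert (x : ℝ) (1 / (q : ℝ) ^ 2)))
        (G f (vert (x : ℝ) s) - G f (vert (x : ℝ) (1 / (q : ℝ) ^ 2)))
      rwa [add_sub_cancel] at this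
    linarith [h1.trans h3]
  have hlim := (tendsto_vert (lim_G f) x).norm
  have h1 : ‖bd (G f) (x : OnePoint ℚ)‖ ≤ C * (1 + Real.log ((q : ℝ) ^ 2)) + 2 * π * C₂ := by
    refine le_of_tendsto hlim ?_
    have hpos : (0 : ℝ) < 1 / (q : ℝ) ^ 2 := by positivity
    filter_upwards [Ioc_mem_nhdsGT hpos] with s hs
    exact hbd s hs
  rw [Real.log_pow] at h1
  push_cast at h1
  have h2 : 0 ≤ 2 * π * C₂ * Real.log q := by positivity
  nlinarith [mul_nonneg hC0 hlogq]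

end Pool.Agent.MU74
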